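import Mathlib
import Pool.Agent.KS6_69.PN.Base

/-!
# Project PN: definitions

Star product of a plane cubic graph `G` with the 13-vertex piece `T` obtained from the starting
counterexample `G₀` by deleting a vertex, the sums `KK`, `TT`, `YY` of its two sides, and the theta
graph.
-/

set_option autoImplicit false
set_option linter.unusedSectionVars false

namespace Pool.Agent.KS6_69.PN.Y494

open Polynomial Pool.Agent.KS6_69.PN.Base

/-! ### The piece `T`: legs `inl i` and internal half-edges `inr (t, b)` -/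

def tabR : List ℕ := [2, 14, 16, 7, 9, 1, 4, 36, 11, 6, 18, 38, 10, 20, 5, 32, 0, 23, 12, 25, 37,
  27, 21, 30, 15, 29, 28, 22, 34, 19, 17, 35, 24, 31, 26, 33, 3, 13, 8]

def tabI : List ℕ := [16, 5, 0, 36, 6, 14, 9, 3, 38, 4, 12, 8, 18, 37, 1, 24, 2, 30, 10, 29, 13, 22,
  27, 17, 32, 19, 34, 21, 26, 25, 23, 33, 15, 35, 28, 31, 7, 20, 11]

/-- code of a half-edge of `T` -/
def cd : Fin 3 ⊕ (Fin 18 × Bool) → ℕ
  | Sum.inl i => 36 + i.val
  | Sum.inr h => 2 * h.1.val + (if h.2 then 1 else 0)

/-- half-edge of `T` with a given code -/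
def dc (k : ℕ) : Fin 3 ⊕ (Fin 18 × Bool) :=
  if k < 36 then Sum.inr (⟨(k / 2) % 18, Nat.mod_lt _ (by norm_num)⟩, k % 2 == 1)
  else Sum.inl ⟨(k - 36) % 3, Nat.mod_lt _ (by norm_num)⟩

/-- The rotation system of `T`. -/
def rT : Equiv.Perm (Fin 3 ⊕ (Fin 18 × Bool)) where
  toFun y := dc (tabR.getD (cd y) 0)
  invFun y := dc (tabI.getD (cd y) 0)
  left_inv := by unfold Function.LeftInverse; decide +kernel
  right_inv := by unfold Function.RightInverse Function.LeftInverse; decide +kernel

theorem rT_cubic : ∀ y, rT (rT (rT y)) = y ∧ rT y ≠ y := by decide +kernel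

variable {E : Type} [Fintype E] [DecidableEq E]

/-- The half-edges `p, rot p, rot (rot p)` at the endpoint of `p`. -/
def hh (G : PlaneCubicGraph E) (p : E × Bool) : Fin 3 → E × Bool :=
  ![p, G.rot p, G.rot (G.rot p)]

/-- A half-edge of `G` as a half-edge of the star product. -/
def old (x : E × Bool) : (E ⊕ Fin 18) × Bool := (Sum.inl x.1, x.2)

/-- A half-edge of `T` as a half-edge of the star product: the leg `i` is the half-edge
`hh G p i`. -/
def emb (G : PlaneCubicGraph E) (p : E × Bool) :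
    Fin 3 ⊕ (Fin 18 × Bool) → (E ⊕ Fin 18) × Bool
  | Sum.inl i => old (hh G p i)
  | Sum.inr h => (Sum.inr h.1, h.2)

/-- The side of `T` to which a half-edge of the star product belongs: `inl x` for an old half-edge
which does not end at the endpoint of `p`, and `inr y` for a half-edge of `T`. -/
def side (G : PlaneCubicGraph E) (p : E × Bool) :
    (E ⊕ Fin 18) × Bool → (E × Bool) ⊕ (Fin 3 ⊕ (Fin 18 × Bool))
  | (Sum.inl e, b) =>
    if (e, b) = p then Sum.inr (Sum.inl 0) else
    if (e, b) = G.rot p then Sum.inr (Sum.inl 1) else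
    if (e, b) = G.rot (G.rot p) then Sum.inr (Sum.inl 2) else Sum.inl (e, b)
  | (Sum.inr t, b) => Sum.inr (Sum.inr (t, b))

theorem side_old_of_ne (G : PlaneCubicGraph E) (p x : E × Bool) (h : ∀ i, x ≠ hh G p i) :
    side G p (old x) = Sum.inl x := by
  have h0 := h 0
  have h1 := h 1
  have h2 := h 2
  simp only [hh, Matrix.cons_val_zero, Matrix.cons_val_one, Matrix.cons_val] at h0 h1 h2
  simp [side, old, h0, h1, h2]

theorem side_emb (G : PlaneCubicGraph E) (p : E × Bool) (y : Fin 3 ⊕ (Fin 18 × Bool)) :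
    side G p (emb G p y) = Sum.inr y := by
  have hp := G.cubic p
  have hq := G.cubic (G.rot p)
  have hr := G.cubic (G.rot (G.rot p))
  have e3 : G.rot (G.rot p) ≠ p := fun h => hr.2 (by rw [hp.1, h])
  rcases y with i | ⟨t, b⟩
  · fin_cases i
    · simp [emb, hh, side, old]
    · simp [emb, hh, side, old, hp.2]
    · simp [emb, hh, side, old, hq.2, e3]
  · rfl

theorem side_cases (G : PlaneCubicGraph E) (p : E × Bool) (z : (E ⊕ Fin 18) × Bool) :
    (∃ x : E × Bool, (∀ i, x ≠ hh G p i) ∧ z = old x) ∨ ∃ y, z = emb G p y := by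
  rcases z with ⟨e | t, b⟩
  · by_cases h : ∃ i, (e, b) = hh G p i
    · obtain ⟨i, hi⟩ := h
      exact Or.inr ⟨Sum.inl i, by simp [emb, ← hi, old]⟩
    · push Not at h
      exact Or.inl ⟨(e, b), h, rfl⟩
  · exact Or.inr ⟨Sum.inr (t, b), rfl⟩

theorem hh_rot (G : PlaneCubicGraph E) (p : E × Bool) (i : Fin 3) :
    G.rot (hh G p i) = hh G p (i + 1) := by
  fin_cases i
  · rfl
  · rfl
  · exact (G.cubic p).1

theorem hh_symm (G : PlaneCubicGraph E) (p : E × Bool) (i : Fin 3) :
    G.rot.symm (hh G p i) = hh G p (i + 2) := by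
  rw [Equiv.symm_apply_eq, hh_rot]
  congr 1
  fin_cases i <;> rfl

theorem hh_inj (G : PlaneCubicGraph E) (p : E × Bool) : Function.Injective (hh G p) := by
  intro i j hij
  have h := congrArg (fun x => side G p (old x)) hij
  have h1 : side G p (old (hh G p i)) = Sum.inr (Sum.inl i) := side_emb G p (Sum.inl i)
  have h2 : side G p (old (hh G p j)) = Sum.inr (Sum.inl j) := side_emb G p (Sum.inl j)
  simp only [h1, h2, Sum.inr.injEq, Sum.inl.injEq] at h
  exact h

theorem rot_ne_hh (G : PlaneCubicGraph E) (p x : E × Bool) (h : ∀ i, x ≠ hh G p i) (i : Fin 3) :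
    G.rot x ≠ hh G p i := by
  intro hx
  apply h (i + 2)
  rw [← hh_symm, ← hx, Equiv.symm_apply_apply]

theorem symm_ne_hh (G : PlaneCubicGraph E) (p x : E × Bool) (h : ∀ i, x ≠ hh G p i) (i : Fin 3) :
    G.rot.symm x ≠ hh G p i := by
  intro hx
  apply h (i + 1)
  rw [← hh_rot, ← hx, Equiv.apply_symm_apply]

/-- The rotation system of the star product of `G` at the endpoint of `p` with `T`. -/
def starRot (G : PlaneCubicGraph E) (p : E × Bool) : Equiv.Perm ((E ⊕ Fin 18) × Bool) where
  toFun z := Sum.elim (fun x => old (G.rot x)) (fun y => emb G p (rT y)) (side G p z)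
  invFun z := Sum.elim (fun x => old (G.rot.symm x)) (fun y => emb G p (rT.symm y)) (side G p z)
  left_inv := by
    intro z
    dsimp only
    rcases side_cases G p z with ⟨x, hx, rfl⟩ | ⟨y, rfl⟩
    · rw [side_old_of_ne G p x hx, Sum.elim_inl, side_old_of_ne G p _ (rot_ne_hh G p x hx),
        Sum.elim_inl, Equiv.symm_apply_apply]
    · rw [side_emb, Sum.elim_inr, side_emb, Sum.elim_inr, Equiv.symm_apply_apply]
  right_inv := by
    intro z
    dsimp only
    rcases side_cases G p z with ⟨x, hx, rfl⟩ | ⟨y, rfl⟩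
    · rw [side_old_of_ne G p x hx, Sum.elim_inl, side_old_of_ne G p _ (symm_ne_hh G p x hx),
        Sum.elim_inl, Equiv.apply_symm_apply]
    · rw [side_emb, Sum.elim_inr, side_emb, Sum.elim_inr, Equiv.apply_symm_apply]

theorem starRot_old (G : PlaneCubicGraph E) (p x : E × Bool) (h : ∀ i, x ≠ hh G p i) :
    starRot G p (old x) = old (G.rot x) := by
  change Sum.elim _ _ (side G p (old x)) = _
  rw [side_old_of_ne G p x h, Sum.elim_inl]

theorem starRot_emb (G : PlaneCubicGraph E) (p : E × Bool) (y : Fin 3 ⊕ (Fin 18 × Bool)) :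
    starRot G p (emb G p y) = emb G p (rT y) := by
  change Sum.elim _ _ (side G p (emb G p y)) = _
  rw [side_emb, Sum.elim_inr]

theorem starRot_symm_old (G : PlaneCubicGraph E) (p x : E × Bool) (h : ∀ i, x ≠ hh G p i) :
    (starRot G p).symm (old x) = old (G.rot.symm x) := by
  change Sum.elim _ _ (side G p (old x)) = _
  rw [side_old_of_ne G p x h, Sum.elim_inl]

theorem starRot_symm_emb (G : PlaneCubicGraph E) (p : E × Bool) (y : Fin 3 ⊕ (Fin 18 × Bool)) :
    (starRot G p).symm (emb G p y) = emb G p (rT.symm y) := by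
  change Sum.elim _ _ (side G p (emb G p y)) = _
  rw [side_emb, Sum.elim_inr]

theorem flip_old (x : E × Bool) : flip (old x) = old (flip x) := rfl

theorem flip_new (G : PlaneCubicGraph E) (p : E × Bool) (t : Fin 18) (b : Bool) :
    flip (emb G p (Sum.inr (t, b))) = emb G p (Sum.inr (t, !b)) := rfl

/-- No vertex carries both half-edges of an edge. -/
def Loopless (G : PlaneCubicGraph E) : Prop := ∀ x : E × Bool, (G.rot x).1 ≠ x.1

/-! ### The sums -/

/-- The weight of an edge, summed over white and crossing. -/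
def wt {N : ℕ} (a₁ b₁ a₂ b₂ : Fin N) : ℤ :=
  (if a₁ = b₂ ∧ a₂ = b₁ then 1 else 0) - (if a₁ = a₂ ∧ b₁ = b₂ then 1 else 0)

/-- The label before the half-edge `x`, with prescribed values `v` at the legs. -/
def bb (G : PlaneCubicGraph E) (p : E × Bool) {N : ℕ} (l : E × Bool → Fin N) (v : Fin 3 → Fin N)
    (x : E × Bool) : Fin N :=
  if x = p then v 0 else if x = G.rot p then v 1 else
    if x = G.rot (G.rot p) then v 2 else l (G.rot.symm x)

/-- The sum of the side of `G`. -/
def KK (G : PlaneCubicGraph E) (p : E × Bool) (N : ℕ) (u v : Fin 3 → Fin N) : ℤ :=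
  ∑ l : E × Bool → Fin N, if ∀ i, l (hh G p i) = u i then
    ∏ e : E, wt (l (e, false)) (bb G p l v (e, false)) (l (e, true)) (bb G p l v (e, true)) else 0

/-- The sum of the side of `T`. -/
def TT (N : ℕ) (u v : Fin 3 → Fin N) : ℤ :=
  ∑ m : Fin 18 × Bool → Fin N, if ∀ i, v i = Sum.elim u m (rT.symm (Sum.inl i)) then
    ∏ t : Fin 18, wt (m (t, false)) (Sum.elim u m (rT.symm (Sum.inr (t, false))))
      (m (t, true)) (Sum.elim u m (rT.symm (Sum.inr (t, true)))) else 0

/-- The sum of the side of a single vertex. -/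
def YY (N : ℕ) (u v : Fin 3 → Fin N) : ℤ := if ∀ i, v i = u (i + 2) then 1 else 0

/-- Colourings of the side of `G` with colours `q` at the legs. -/
noncomputable def colG (G : PlaneCubicGraph E) (p : E × Bool) (q : Fin 3 → Fin 3) : ℕ :=
  Nat.card {c : E → Fin 3 // (∀ i, c (hh G p i).1 = q i) ∧
    ∀ x, (∀ i, x ≠ hh G p i) → c x.1 ≠ c (G.rot x).1}

/-- Colourings of the side of `T` with colours `q` at the legs. -/
noncomputable def colT (q : Fin 3 → Fin 3) : ℕ :=
  Nat.card {c : Fin 18 → Fin 3 // ∀ y : Fin 3 ⊕ (Fin 18 × Bool),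
    Sum.elim q (fun z => c z.1) y ≠ Sum.elim q (fun z => c z.1) (rT y)}

/-! ### The theta graph -/

/-- The rotation system of the theta graph. -/
def rotTheta : Equiv.Perm (Fin 3 × Bool) where
  toFun x := if x.2 then (x.1 + 2, true) else (x.1 + 1, false)
  invFun x := if x.2 then (x.1 + 1, true) else (x.1 + 2, false)
  left_inv := by unfold Function.LeftInverse; decide +kernel
  right_inv := by unfold Function.RightInverse Function.LeftInverse; decide +kernel

end Pool.Agent.KS6_69.PN.Y494
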