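import Mathlib
import Pool.Agent.KS6_69.PN.Defs

/-!
# Project PN: the sum of the side of `G` is alternating and invariant (job PN-ANTI)
-/

set_option autoImplicit false

namespace Pool.Agent.KS6_69.PN.Y406

open Polynomial Pool.Agent.KS6_69.PN.Base Pool.Agent.KS6_69.PN.Y494

variable {E : Type} [Fintype E] [DecidableEq E]

/-- the label before a leg -/
theorem bb_hh (G : PlaneCubicGraph E) (p : E × Bool) {N : ℕ} (l : E × Bool → Fin N)
    (v : Fin 3 → Fin N) (j : Fin 3) : bb G p l v (hh G p j) = v j := by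
  have h01 : hh G p 1 ≠ hh G p 0 := fun h => by simpa using hh_inj G p h
  have h02 : hh G p 2 ≠ hh G p 0 := fun h => by simpa using hh_inj G p h
  have h12 : hh G p 2 ≠ hh G p 1 := fun h => by simpa using hh_inj G p h
  have e0 : hh G p 0 = p := rfl
  have e1 : hh G p 1 = G.rot p := rfl
  have e2 : hh G p 2 = G.rot (G.rot p) := rfl
  unfold bb
  fin_cases j
  · show (if hh G p 0 = p then v 0 else _) = v 0
    rw [if_pos e0]
  · show (if hh G p 1 = p then v 0 else if hh G p 1 = G.rot p then v 1 else _) = v 1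
    rw [if_neg (by rw [← e0]; exact h01), if_pos e1]
  · show (if hh G p 2 = p then v 0 else if hh G p 2 = G.rot p then v 1 else
      if hh G p 2 = G.rot (G.rot p) then v 2 else _) = v 2
    rw [if_neg (by rw [← e0]; exact h02), if_neg (by rw [← e1]; exact h12), if_pos e2]

/-- the label before another half-edge -/
theorem bb_ne (G : PlaneCubicGraph E) (p : E × Bool) {N : ℕ} (l : E × Bool → Fin N)
    (v : Fin 3 → Fin N) {x : E × Bool} (h : ∀ i, x ≠ hh G p i) :
    bb G p l v x = l (G.rot.symm x) := by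
  have h0 : x ≠ p := h 0
  have h1 : x ≠ G.rot p := h 1
  have h2 : x ≠ G.rot (G.rot p) := h 2
  unfold bb
  rw [if_neg h0, if_neg h1, if_neg h2]

theorem wt_swap1 {N : ℕ} (a₁ b₁ a₂ b₂ : Fin N) : wt b₁ a₁ a₂ b₂ = - wt a₁ b₁ a₂ b₂ := by
  unfold wt
  have e1 : (b₁ = b₂ ∧ a₂ = a₁) ↔ (a₁ = a₂ ∧ b₁ = b₂) :=
    ⟨fun h => ⟨h.2.symm, h.1⟩, fun h => ⟨h.2, h.1.symm⟩⟩
  have e2 : (b₁ = a₂ ∧ a₁ = b₂) ↔ (a₁ = b₂ ∧ a₂ = b₁) :=
    ⟨fun h => ⟨h.2, h.1.symm⟩, fun h => ⟨h.2.symm, h.1⟩⟩
  rw [if_congr e1 rfl rfl, if_congr e2 rfl rfl]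
  ring

theorem wt_swap2 {N : ℕ} (a₁ b₁ a₂ b₂ : Fin N) : wt a₁ b₁ b₂ a₂ = - wt a₁ b₁ a₂ b₂ := by
  unfold wt
  have e1 : (a₁ = a₂ ∧ b₂ = b₁) ↔ (a₁ = a₂ ∧ b₁ = b₂) :=
    ⟨fun h => ⟨h.1, h.2.symm⟩, fun h => ⟨h.1, h.2.symm⟩⟩
  have e2 : (a₁ = b₂ ∧ b₁ = a₂) ↔ (a₁ = b₂ ∧ a₂ = b₁) :=
    ⟨fun h => ⟨h.1, h.2.symm⟩, fun h => ⟨h.1, h.2.symm⟩⟩
  rw [if_congr e1 rfl rfl, if_congr e2 rfl rfl]
  ring

/-- exchanging the two labels at one half-edge -/
theorem prod_swap {N : ℕ} (a b a' b' : E × Bool → Fin N) (z : E × Bool)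
    (h1 : ∀ x, x ≠ z → a' x = a x) (h2 : ∀ x, x ≠ z → b' x = b x) (h3 : a' z = b z)
    (h4 : b' z = a z) :
    ∏ e : E, wt (a' (e, false)) (b' (e, false)) (a' (e, true)) (b' (e, true)) =
      - ∏ e : E, wt (a (e, false)) (b (e, false)) (a (e, true)) (b (e, true)) := by
  rw [← Finset.mul_prod_erase Finset.univ (fun e : E =>
      wt (a' (e, false)) (b' (e, false)) (a' (e, true)) (b' (e, true))) (Finset.mem_univ z.1),
    ← Finset.mul_prod_erase Finset.univ (fun e : E =>
      wt (a (e, false)) (b (e, false)) (a (e, true)) (b (e, true))) (Finset.mem_univ z.1),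
    ← neg_mul]
  have hr : ∏ e ∈ Finset.univ.erase z.1,
      wt (a' (e, false)) (b' (e, false)) (a' (e, true)) (b' (e, true)) =
      ∏ e ∈ Finset.univ.erase z.1,
      wt (a (e, false)) (b (e, false)) (a (e, true)) (b (e, true)) := by
    refine Finset.prod_congr rfl fun e he => ?_
    have hne : ∀ c : Bool, (e, c) ≠ z := by
      intro c hc
      exact (Finset.mem_erase.1 he).1 (by rw [← hc])
    rw [h1 _ (hne false), h1 _ (hne true), h2 _ (hne false), h2 _ (hne true)]
  have hl : wt (a' (z.1, false)) (b' (z.1, false)) (a' (z.1, true)) (b' (z.1, true)) =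
      - wt (a (z.1, false)) (b (z.1, false)) (a (z.1, true)) (b (z.1, true)) := by
    obtain ⟨e, c⟩ := z
    cases c with
    | false =>
      have hne : ((e, true) : E × Bool) ≠ (e, false) := by simp
      show wt (a' (e, false)) (b' (e, false)) (a' (e, true)) (b' (e, true)) =
        - wt (a (e, false)) (b (e, false)) (a (e, true)) (b (e, true))
      rw [h1 _ hne, h2 _ hne, h3, h4, wt_swap1]
    | true =>
      have hne : ((e, false) : E × Bool) ≠ (e, true) := by simp
      show wt (a' (e, false)) (b' (e, false)) (a' (e, true)) (b' (e, true)) =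
        - wt (a (e, false)) (b (e, false)) (a (e, true)) (b (e, true))
      rw [h1 _ hne, h2 _ hne, h3, h4, wt_swap2]
  rw [hr, hl]

/-- one term -/
theorem term_anti (G : PlaneCubicGraph E) (p : E × Bool) (N : ℕ) (u v : Fin 3 → Fin N) (i : Fin 3)
    (l : E × Bool → Fin N) (hl : l (hh G p i) = u i) :
    ∏ e : E, wt (Function.update l (hh G p i) (v i) (e, false))
      (bb G p (Function.update l (hh G p i) (v i)) (Function.update v i (u i)) (e, false))
      (Function.update l (hh G p i) (v i) (e, true))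
      (bb G p (Function.update l (hh G p i) (v i)) (Function.update v i (u i)) (e, true)) =
    - ∏ e : E, wt (l (e, false)) (bb G p l v (e, false)) (l (e, true)) (bb G p l v (e, true)) := by
  refine prod_swap l (bb G p l v) (Function.update l (hh G p i) (v i))
    (bb G p (Function.update l (hh G p i) (v i)) (Function.update v i (u i))) (hh G p i)
    ?_ ?_ ?_ ?_
  · intro x hx
    exact Function.update_of_ne hx _ _
  · intro x hx
    by_cases h : ∃ j, x = hh G p j
    · obtain ⟨j, rfl⟩ := h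
      have hj : j ≠ i := by
        rintro rfl
        exact hx rfl
      rw [bb_hh, bb_hh, Function.update_of_ne hj]
    · push Not at h
      rw [bb_ne G p _ _ h, bb_ne G p _ _ h, Function.update_of_ne (symm_ne_hh G p x h i)]
  · rw [bb_hh, Function.update_self]
  · rw [bb_hh, Function.update_self, hl]

theorem KK_anti (G : PlaneCubicGraph E) (p : E × Bool) (N : ℕ) (u v : Fin 3 → Fin N) (i : Fin 3) :
    KK G p N (Function.update u i (v i)) (Function.update v i (u i)) = - KK G p N u v := by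
  unfold KK
  rw [← Finset.sum_filter, ← Finset.sum_filter, ← Finset.sum_neg_distrib]
  symm
  refine Finset.sum_nbij' (fun l => Function.update l (hh G p i) (v i))
    (fun l => Function.update l (hh G p i) (u i)) ?_ ?_ ?_ ?_ ?_
  · intro l hl
    rw [Finset.mem_filter] at hl ⊢
    refine ⟨Finset.mem_univ _, fun j => ?_⟩
    by_cases hj : j = i
    · subst hj
      rw [Function.update_self, Function.update_self]
    · rw [Function.update_of_ne hj, Function.update_of_ne (fun h => hj (hh_inj G p h)), hl.2 j]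
  · intro l hl
    rw [Finset.mem_filter] at hl ⊢
    refine ⟨Finset.mem_univ _, fun j => ?_⟩
    by_cases hj : j = i
    · subst hj
      rw [Function.update_self]
    · rw [Function.update_of_ne (fun h => hj (hh_inj G p h)), hl.2 j, Function.update_of_ne hj]
  · intro l hl
    rw [Finset.mem_filter] at hl
    show Function.update (Function.update l (hh G p i) (v i)) (hh G p i) (u i) = l
    rw [Function.update_idem, ← hl.2 i, Function.update_eq_self]
  · intro l hl
    rw [Finset.mem_filter] at hl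
    show Function.update (Function.update l (hh G p i) (u i)) (hh G p i) (v i) = l
    have h1 := hl.2 i
    rw [Function.update_self] at h1
    rw [Function.update_idem, ← h1, Function.update_eq_self]
  · intro l hl
    rw [Finset.mem_filter] at hl
    exact (term_anti G p N u v i l (hl.2 i)).symm

theorem wt_perm {N : ℕ} (π : Equiv.Perm (Fin N)) (a₁ b₁ a₂ b₂ : Fin N) :
    wt (π a₁) (π b₁) (π a₂) (π b₂) = wt a₁ b₁ a₂ b₂ := by
  unfold wt
  simp only [π.injective.eq_iff]

theorem bb_perm (G : PlaneCubicGraph E) (p : E × Bool) {N : ℕ} (π : Equiv.Perm (Fin N))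
    (l : E × Bool → Fin N) (v : Fin 3 → Fin N) (x : E × Bool) :
    bb G p (π ∘ l) (π ∘ v) x = π (bb G p l v x) := by
  unfold bb
  split_ifs <;> rfl

theorem KK_perm (G : PlaneCubicGraph E) (p : E × Bool) (N : ℕ) (π : Equiv.Perm (Fin N))
    (u v : Fin 3 → Fin N) : KK G p N (π ∘ u) (π ∘ v) = KK G p N u v := by
  unfold KK
  symm
  refine Fintype.sum_equiv ((Equiv.refl (E × Bool)).arrowCongr π) _ _ fun l => ?_
  have e : ((Equiv.refl (E × Bool)).arrowCongr π) l = π ∘ l := rfl
  rw [e]
  have e1 : (∀ i, (π ∘ l) (hh G p i) = (π ∘ u) i) ↔ ∀ i, l (hh G p i) = u i := by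
    refine forall_congr' fun i => ?_
    exact π.injective.eq_iff
  have e2 : ∏ e : E, wt ((π ∘ l) (e, false)) (bb G p (π ∘ l) (π ∘ v) (e, false))
      ((π ∘ l) (e, true)) (bb G p (π ∘ l) (π ∘ v) (e, true)) =
      ∏ e : E, wt (l (e, false)) (bb G p l v (e, false)) (l (e, true)) (bb G p l v (e, true)) := by
    refine Finset.prod_congr rfl fun e _ => ?_
    rw [bb_perm, bb_perm]
    exact wt_perm π _ _ _ _
  rw [e2]
  exact (if_congr e1 rfl rfl).symm

end Pool.Agent.KS6_69.PN.Y406
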