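import Mathlib
import Pool.Agent.KS6_69.PN.Defs

/-!
# Colourings by the colours at a vertex (job PN-COLA, project of ; proof by )
-/

set_option autoImplicit false
set_option linter.unusedSectionVars false

namespace Pool.Agent.KS6_69.PN.Y43

open Polynomial Pool.Agent.KS6_69.PN.Base Pool.Agent.KS6_69.PN.Y494

variable {E : Type} [Fintype E] [DecidableEq E]

theorem sameCycle_iff (G : PlaneCubicGraph E) (h k : E × Bool) :
    G.rot.SameCycle h k ↔ (k = h ∨ k = G.rot h ∨ k = G.rot (G.rot h)) := by
  have h3 : G.rot ^ 3 = 1 := by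
    ext x : 1
    exact (G.cubic x).1
  constructor
  · rintro ⟨i, rfl⟩
    have hi : G.rot ^ i = G.rot ^ (i % 3) := by
      conv_lhs => rw [← Int.emod_add_mul_ediv i 3, zpow_add, zpow_mul]
      have : G.rot ^ (3 : ℤ) = 1 := by exact_mod_cast h3
      rw [this, one_zpow, mul_one]
    rw [hi]
    have h0 : 0 ≤ i % 3 := Int.emod_nonneg _ (by norm_num)
    have h1 : i % 3 < 3 := Int.emod_lt_of_pos _ (by norm_num)
    have : i % 3 = 0 ∨ i % 3 = 1 ∨ i % 3 = 2 := by omega
    rcases this with h | h | h
    · left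
      rw [h]
      simp
    · right
      left
      rw [h]
      simp
    · right
      right
      rw [h]
      have : (G.rot ^ (2 : ℤ)) = G.rot * G.rot := by rw [zpow_ofNat, sq]
      rw [this]
      rfl
  · rintro (rfl | rfl | rfl)
    · exact Equiv.Perm.SameCycle.refl _ _
    · exact ⟨1, by simp⟩
    · exact ⟨2, by rw [zpow_ofNat, sq]; rfl⟩

theorem col_eq (G : PlaneCubicGraph E) (hG : Loopless G) :
    G.numColourings = Nat.card {c : E → Fin 3 // ∀ x, c x.1 ≠ c (G.rot x).1} := by
  unfold PlaneCubicGraph.numColourings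
  refine Nat.card_congr (Equiv.subtypeEquivRight fun c => ?_)
  constructor
  · intro H x
    exact H x (G.rot x) ((sameCycle_iff G _ _).2 (Or.inr (Or.inl rfl))) (fun h => hG x h.symm)
  · intro H h k hk hne
    rcases (sameCycle_iff G h k).1 hk with rfl | rfl | rfl
    · exact absurd rfl hne
    · exact H h
    · have := H (G.rot (G.rot h))
      rw [(G.cubic h).1] at this
      exact this.symm

theorem inj_of_next : ∀ q : Fin 3 → Fin 3, (∀ i, q i ≠ q (i + 1)) → Function.Injective q := by
  decide

theorem col_self (G : PlaneCubicGraph E) (hG : Loopless G) (p : E × Bool) :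
    G.numColourings = ∑ q : Fin 3 → Fin 3, if Function.Injective q then colG G p q else 0 := by
  rw [col_eq G hG]
  let φ : {c : E → Fin 3 // ∀ x, c x.1 ≠ c (G.rot x).1} → (Fin 3 → Fin 3) :=
    fun c i => c.1 (hh G p i).1
  rw [Nat.card_congr (Equiv.sigmaFiberEquiv φ).symm, Nat.card_sigma]
  apply Finset.sum_congr rfl
  intro q _
  by_cases hq : Function.Injective q
  · rw [if_pos hq]
    unfold colG
    refine Nat.card_congr ⟨fun s => ⟨s.1.1, fun i => congrFun s.2 i, fun x _ => s.1.2 x⟩,
      fun c => ⟨⟨c.1, ?_⟩, ?_⟩, ?_, ?_⟩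
    · intro x
      by_cases hx : ∃ i, x = hh G p i
      · obtain ⟨i, rfl⟩ := hx
        rw [hh_rot, c.2.1, c.2.1]
        intro h
        have h2 : ∀ j : Fin 3, j ≠ j + 1 := by decide
        exact h2 i (hq h)
      · push Not at hx
        exact c.2.2 x hx
    · funext i
      exact c.2.1 i
    · intro s
      rfl
    · intro c
      rfl
  · rw [if_neg hq]
    have : IsEmpty {x // φ x = q} := by
      refine ⟨fun s => hq (inj_of_next q fun i => ?_)⟩
      have h1 := s.1.2 (hh G p i)
      rw [hh_rot] at h1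
      have h2 : s.1.1 (hh G p i).1 = q i := congrFun s.2 i
      have h3 : s.1.1 (hh G p (i + 1)).1 = q (i + 1) := congrFun s.2 (i + 1)
      rw [h2, h3] at h1
      exact h1
    exact Nat.card_of_isEmpty

end Pool.Agent.KS6_69.PN.Y43
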