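import Mathlib
import Pool.Agent.KS6_69.PN.Defs

/-!
# Project PN: the star product is cubic and connected ()
-/

set_option autoImplicit false
set_option linter.unusedSectionVars false

namespace Pool.Agent.KS6_69.PN.Y917

open Polynomial Pool.Agent.KS6_69.PN.Base Pool.Agent.KS6_69.PN.Y494

variable {E : Type} [Fintype E] [DecidableEq E]

theorem old_inj : Function.Injective (old : E × Bool → (E ⊕ Fin 18) × Bool) := by
  rintro ⟨a, b⟩ ⟨c, d⟩ h
  simp only [old, Prod.mk.injEq, Sum.inl.injEq] at h
  rw [h.1, h.2]

theorem star_cubic (G : PlaneCubicGraph E) (p : E × Bool) (z : (E ⊕ Fin 18) × Bool) :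
    starRot G p (starRot G p (starRot G p z)) = z ∧ starRot G p z ≠ z := by
  rcases side_cases G p z with ⟨x, hx, rfl⟩ | ⟨y, rfl⟩
  · have h1 := rot_ne_hh G p x hx
    have h2 := rot_ne_hh G p _ h1
    rw [starRot_old G p x hx, starRot_old G p _ h1, starRot_old G p _ h2, (G.cubic x).1]
    exact ⟨rfl, fun h => (G.cubic x).2 (old_inj h)⟩
  · rw [starRot_emb, starRot_emb, starRot_emb, (rT_cubic y).1]
    refine ⟨rfl, fun h => (rT_cubic y).2 ?_⟩
    have h' := congrArg (side G p) h
    rw [side_emb, side_emb] at h'
    exact Sum.inr_injective h'

/-- The equivalence relation of the group generated by the star rotation and `flip`. -/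
def Rl (G : PlaneCubicGraph E) (p : E × Bool) (h k : (E ⊕ Fin 18) × Bool) : Prop :=
  ∃ g ∈ Subgroup.closure {starRot G p, flip}, g h = k

theorem Rl.refl (G : PlaneCubicGraph E) (p : E × Bool) (h : (E ⊕ Fin 18) × Bool) : Rl G p h h :=
  ⟨1, Subgroup.one_mem _, rfl⟩

theorem Rl.symm {G : PlaneCubicGraph E} {p : E × Bool} {h k : (E ⊕ Fin 18) × Bool}
    (r : Rl G p h k) : Rl G p k h := by
  obtain ⟨g, hg, rfl⟩ := r
  exact ⟨g⁻¹, Subgroup.inv_mem _ hg, by simp⟩

theorem Rl.trans {G : PlaneCubicGraph E} {p : E × Bool} {h k l : (E ⊕ Fin 18) × Bool}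
    (r : Rl G p h k) (s : Rl G p k l) : Rl G p h l := by
  obtain ⟨g, hg, rfl⟩ := r
  obtain ⟨g', hg', rfl⟩ := s
  exact ⟨g' * g, Subgroup.mul_mem _ hg' hg, rfl⟩

theorem Rl.rot (G : PlaneCubicGraph E) (p : E × Bool) (h : (E ⊕ Fin 18) × Bool) :
    Rl G p h (starRot G p h) :=
  ⟨starRot G p, Subgroup.subset_closure (by simp), rfl⟩

theorem Rl.flp (G : PlaneCubicGraph E) (p : E × Bool) (h : (E ⊕ Fin 18) × Bool) :
    Rl G p h (flip h) :=
  ⟨flip, Subgroup.subset_closure (by simp), rfl⟩

/-- A move inside the piece `T`. -/
def mv (y : Fin 3 ⊕ (Fin 18 × Bool)) (b : Bool) : Fin 3 ⊕ (Fin 18 × Bool) :=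
  if b then rT y else
    match y with
    | Sum.inl i => Sum.inl i
    | Sum.inr h => Sum.inr (h.1, !h.2)

theorem mv_rel (G : PlaneCubicGraph E) (p : E × Bool) (y : Fin 3 ⊕ (Fin 18 × Bool)) (b : Bool) :
    Rl G p (emb G p y) (emb G p (mv y b)) := by
  cases b with
  | true =>
    have h := Rl.rot G p (emb G p y)
    rw [starRot_emb] at h
    exact h
  | false =>
    rcases y with i | ⟨t, b⟩
    · exact Rl.refl G p _
    · exact Rl.flp G p (emb G p (Sum.inr (t, b)))

theorem word_rel (G : PlaneCubicGraph E) (p : E × Bool) (w : List Bool) :
    ∀ y : Fin 3 ⊕ (Fin 18 × Bool), Rl G p (emb G p y) (emb G p (w.foldl mv y)) := by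
  induction w with
  | nil => intro y; exact Rl.refl G p _
  | cons b w ih => intro y; exact (mv_rel G p y b).trans (ih (mv y b))

def wordsT : List (List Bool) :=
  [[], [false], [true], [true, false], [false, true, true, false], [false, true, true], [true,
  false, true, false], [true, false, true], [false, true, true, false, true, false], [false,
  true, true, false, true], [false, true, true, false, true, false, true, false], [false, true,
  true, false, true, false, true], [false, true, false, true, true, false, true, true, false,
  true], [true, true, false, true, false, true, false, true, true], [false, true], [false, true,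
  false], [true, true], [true, true, false], [false, true, false, true, true, false, true, true,
  false], [false, true, false, true, true, false, true, true], [true, true, false, true, false,
  true, false], [true, true, false, true, false, true], [true, true, false, true, false], [true,
  true, false, true], [false, true, false, true, true], [false, true, false, true, true, false],
  [true, true, false, true, false, true, true, false], [true, true, false, true, false, true,
  true], [false, true, false, true, true, false, true, false], [false, true, false, true, true,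
  false, true], [true, true, false, true, true], [false, true, false, true, false, true],
  [false, true, false, true], [false, true, false, true, false], [false, true, false, true,
  false, true, true, false], [false, true, false, true, false, true, true], [true, false, true,
  true], [true, true, false, true, false, true, false, true], [false, true, true, false, true,
  false, true, true]]

theorem wordsT_spec : ∀ y : Fin 3 ⊕ (Fin 18 × Bool),
    (wordsT.getD (cd y) []).foldl mv (Sum.inr (0, false)) = y := by
  decide +kernel

theorem emb_rel (G : PlaneCubicGraph E) (p : E × Bool) (y y' : Fin 3 ⊕ (Fin 18 × Bool)) :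
    Rl G p (emb G p y) (emb G p y') := by
  have h := word_rel G p (wordsT.getD (cd y) []) (Sum.inr (0, false))
  have h' := word_rel G p (wordsT.getD (cd y') []) (Sum.inr (0, false))
  rw [wordsT_spec] at h h'
  exact h.symm.trans h'

theorem old_rel_rot (G : PlaneCubicGraph E) (p x : E × Bool) : Rl G p (old x) (old (G.rot x)) := by
  by_cases h : ∃ i, x = hh G p i
  · obtain ⟨i, rfl⟩ := h
    rw [hh_rot]
    exact emb_rel G p (Sum.inl i) (Sum.inl (i + 1))
  · push Not at h
    rw [← starRot_old G p x h]
    exact Rl.rot G p _

theorem old_rel_flip (G : PlaneCubicGraph E) (p x : E × Bool) :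
    Rl G p (old x) (old (flip x)) := Rl.flp G p (old x)

theorem old_rel (G : PlaneCubicGraph E) (p x x' : E × Bool) : Rl G p (old x) (old x') := by
  obtain ⟨g, hg, rfl⟩ := G.connected x x'
  revert x
  induction hg using Subgroup.closure_induction with
  | mem g hg =>
    intro x
    rcases hg with rfl | hg
    · exact old_rel_rot G p x
    · rw [Set.mem_singleton_iff] at hg
      rw [hg]
      exact old_rel_flip G p x
  | one => intro x; exact Rl.refl G p _
  | mul g g' _ _ ih ih' => intro x; exact (ih' x).trans (ih (g' x))
  | inv g _ ih =>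
    intro x
    have h := ih (g⁻¹ x)
    have e : g (g⁻¹ x) = x := by simp
    rw [e] at h
    exact h.symm

theorem star_rel (G : PlaneCubicGraph E) (p : E × Bool) (z : (E ⊕ Fin 18) × Bool) :
    Rl G p (old p) z := by
  rcases side_cases G p z with ⟨x, -, rfl⟩ | ⟨y, rfl⟩
  · exact old_rel G p p x
  · exact emb_rel G p (Sum.inl 0) y

theorem star_conn (G : PlaneCubicGraph E) (p : E × Bool) (h k : (E ⊕ Fin 18) × Bool) :
    ∃ g ∈ Subgroup.closure {starRot G p, flip}, g h = k :=
  (star_rel G p h).symm.trans (star_rel G p k)

end Pool.Agent.KS6_69.PN.Y917
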