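import Mathlib
import Pool.Agent.KS6_69.PN.Defs

/-!
PN-EVEN: parity of the labels at the legs.
-/

set_option autoImplicit false

namespace Pool.Agent.KS6_69.PN.Y528

open Polynomial Pool.Agent.KS6_69.PN.Base Pool.Agent.KS6_69.PN.Y494

variable {E : Type} [Fintype E] [DecidableEq E]

theorem wt_even {N : ℕ} (a₁ b₁ a₂ b₂ c : Fin N) (h : wt a₁ b₁ a₂ b₂ ≠ 0) :
    (if a₁ = c then (1 : ZMod 2) else 0) + (if b₁ = c then 1 else 0) +
      ((if a₂ = c then 1 else 0) + (if b₂ = c then 1 else 0)) = 0 := by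
  by_cases h1 : a₁ = b₂ ∧ a₂ = b₁
  · obtain ⟨rfl, rfl⟩ := h1
    have e : ∀ x y : ZMod 2, x + y + (y + x) = 0 := by decide
    exact e _ _
  · by_cases h2 : a₁ = a₂ ∧ b₁ = b₂
    · obtain ⟨rfl, rfl⟩ := h2
      have e : ∀ x y : ZMod 2, x + y + (x + y) = 0 := by decide
      exact e _ _
    · exact absurd (by simp [wt, h1, h2]) h

theorem bb_hh (G : PlaneCubicGraph E) (p : E × Bool) {N : ℕ} (l : E × Bool → Fin N)
    (v : Fin 3 → Fin N) (i : Fin 3) : bb G p l v (hh G p i) = v i := by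
  have hp := G.cubic p
  have hq := G.cubic (G.rot p)
  have hr := G.cubic (G.rot (G.rot p))
  have e3 : G.rot (G.rot p) ≠ p := fun h => hr.2 (by rw [hp.1, h])
  fin_cases i
  · simp [bb, hh]
  · simp [bb, hh, hp.2]
  · simp [bb, hh, hq.2, e3]

theorem bb_of_ne (G : PlaneCubicGraph E) (p : E × Bool) {N : ℕ} (l : E × Bool → Fin N)
    (v : Fin 3 → Fin N) (x : E × Bool) (h : ∀ i, x ≠ hh G p i) :
    bb G p l v x = l (G.rot.symm x) := by
  have h0 := h 0
  have h1 := h 1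
  have h2 := h 2
  simp only [hh, Matrix.cons_val_zero, Matrix.cons_val_one, Matrix.cons_val] at h0 h1 h2
  simp [bb, h0, h1, h2]

theorem KK_even (G : PlaneCubicGraph E) (p : E × Bool) (N : ℕ) (u v : Fin 3 → Fin N)
    (h : KK G p N u v ≠ 0) (c : Fin N) : Even ((Finset.univ.filter fun i => u i = c).card +
        (Finset.univ.filter fun i => v i = c).card) := by
  obtain ⟨l, -, hl⟩ := Finset.exists_ne_zero_of_sum_ne_zero h
  rw [ite_ne_right_iff] at hl
  obtain ⟨hu, hl⟩ := hl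
  rw [Finset.prod_ne_zero_iff] at hl
  let χ : Fin N → ZMod 2 := fun a => if a = c then 1 else 0
  have h1 : ∑ x : E × Bool, (χ (l x) + χ (bb G p l v x)) = 0 := by
    rw [Fintype.sum_prod_type]
    refine Finset.sum_eq_zero fun e _ => ?_
    rw [Fintype.sum_bool, add_comm]
    exact wt_even _ _ _ _ c (hl e (Finset.mem_univ _))
  have h2 : ∑ i, (χ (v i) - χ (u (i + 2))) =
      ∑ x : E × Bool, (χ (bb G p l v x) - χ (l (G.rot.symm x))) := by
    refine Fintype.sum_of_injective (hh G p) (hh_inj G p) _ _ ?_ ?_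
    · intro x hx
      rw [bb_of_ne G p l v x fun i hi => hx ⟨i, hi.symm⟩, sub_self]
    · intro i
      rw [bb_hh, hh_symm, hu]
  have h3 : ∑ x : E × Bool, χ (l (G.rot.symm x)) = ∑ x : E × Bool, χ (l x) :=
    Equiv.sum_comp G.rot.symm fun x => χ (l x)
  have h4 : ∑ i : Fin 3, χ (u (i + 2)) = ∑ i, χ (u i) :=
    Equiv.sum_comp (Equiv.addRight (2 : Fin 3)) fun x => χ (u x)
  rw [Finset.sum_sub_distrib, Finset.sum_sub_distrib, h3, h4] at h2
  rw [Finset.sum_add_distrib] at h1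
  have h5 : ∑ i, χ (u i) + ∑ i, χ (v i) = 0 := by
    have e : ∀ a b x y : ZMod 2, x + y = 0 → b - a = y - x → a + b = 0 := by decide
    exact e _ _ _ _ h1 h2
  rw [← ZMod.natCast_eq_zero_iff_even, Nat.cast_add, Finset.natCast_card_filter,
    Finset.natCast_card_filter]
  exact h5

end Pool.Agent.KS6_69.PN.Y528
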