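import Mathlib
import Pool.Agent.KS6_69.PN.Defs

/-! PN-FACE: the faces of the star product. -/

set_option autoImplicit false
set_option linter.unusedSectionVars false

namespace Pool.Agent.KS6_69.PN.Y291

open Polynomial Pool.Agent.KS6_69.PN.Base Pool.Agent.KS6_69.PN.Y494

/-! ### Tables -/

def tabL : List ℕ := [3, 4, 4, 1, 4, 5, 0, 4, 0, 5, 2, 5, 6, 2, 3, 5, 1, 3, 5, 6, 6, 1, 7, 1, 8, 5,
  7, 6, 6, 8, 7, 3, 3, 8, 8, 7, 0, 1, 2]

def repL : List ℕ := [0, 1, 5, 12, 22, 24]

/-- the face of a half-edge of `T`: `inl j` if it leads to the leg `j` -/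
def lt (y : Fin 3 ⊕ (Fin 18 × Bool)) : Fin 3 ⊕ Fin 6 :=
  if tabL.getD (cd y) 0 < 3 then Sum.inl ⟨tabL.getD (cd y) 0 % 3, Nat.mod_lt _ (by norm_num)⟩
  else Sum.inr ⟨(tabL.getD (cd y) 0 - 3) % 6, Nat.mod_lt _ (by norm_num)⟩

def rep (k : Fin 6) : Fin 18 × Bool :=
  (⟨(repL.getD k.val 0 / 2) % 18, Nat.mod_lt _ (by norm_num)⟩, repL.getD k.val 0 % 2 == 1)

def stp : Fin 3 ⊕ (Fin 18 × Bool) → Fin 3 ⊕ (Fin 18 × Bool)
  | Sum.inl i => Sum.inl i
  | Sum.inr h => rT (Sum.inr (h.1, !h.2))

def tgt : Fin 3 ⊕ Fin 6 → Fin 3 ⊕ (Fin 18 × Bool)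
  | Sum.inl i => Sum.inl i
  | Sum.inr k => Sum.inr (rep k)

theorem T0 : ∀ i : Fin 3, lt (Sum.inl i) = Sum.inl i := by decide +kernel

theorem T1 : ∀ i : Fin 3, lt (rT (Sum.inl i)) = Sum.inl (i + 1) := by decide +kernel

theorem T2 : ∀ (t : Fin 18) (b : Bool), lt (rT (Sum.inr (t, !b))) = lt (Sum.inr (t, b)) := by
  decide +kernel

theorem T3 : ∀ y : Fin 3 ⊕ (Fin 18 × Bool), ∃ n : Fin 7, stp^[n.val] y = tgt (lt y) := by
  decide +kernel

theorem T4 : ∀ k : Fin 6, lt (Sum.inr (rep k)) = Sum.inr k := by decide +kernel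

/-! ### Cycles -/

theorem const_of_step {T S : Type} (π : Equiv.Perm T) (lab : T → S) (h1 : ∀ x, lab (π x) = lab x)
    (x y : T) (h : π.SameCycle x y) : lab x = lab y := by
  have hinv : ∀ x, lab (π⁻¹ x) = lab x := by
    intro x
    have h := h1 (π⁻¹ x)
    have h' : π (π⁻¹ x) = x := by simp
    rw [h'] at h
    exact h.symm
  have hz : ∀ (i : ℤ) x, lab ((π ^ i) x) = lab x := by
    intro i
    induction i using Int.induction_on with
    | zero => intro x; simp
    | succ i ih => intro x; rw [zpow_add_one, Equiv.Perm.mul_apply, ih, h1]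
    | pred i ih => intro x; rw [zpow_sub_one, Equiv.Perm.mul_apply, ih, hinv]
  obtain ⟨i, rfl⟩ := h
  rw [hz]

variable {E : Type} [Fintype E] [DecidableEq E]

/-- the face permutation of the star product -/
abbrev ff (G : PlaneCubicGraph E) (p : E × Bool) : Equiv.Perm ((E ⊕ Fin 18) × Bool) :=
  starRot G p * Pool.Agent.KS6_69.PN.Base.flip

/-- the face permutation of `G` -/
abbrev gg (G : PlaneCubicGraph E) : Equiv.Perm (E × Bool) :=
  G.rot * Pool.Agent.KS6_69.PN.Base.flip

theorem ff_old_ne (G : PlaneCubicGraph E) (p x : E × Bool)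
    (h : ∀ i, Pool.Agent.KS6_69.PN.Base.flip x ≠ hh G p i) :
    ff G p (old x) = old (gg G x) := by
  rw [Equiv.Perm.mul_apply, flip_old, starRot_old G p _ h, Equiv.Perm.mul_apply]

theorem ff_old_leg (G : PlaneCubicGraph E) (p x : E × Bool) (i : Fin 3)
    (h : Pool.Agent.KS6_69.PN.Base.flip x = hh G p i) :
    ff G p (old x) = emb G p (rT (Sum.inl i)) := by
  rw [Equiv.Perm.mul_apply, flip_old, h]
  exact starRot_emb G p (Sum.inl i)

theorem gg_leg (G : PlaneCubicGraph E) (p x : E × Bool) (i : Fin 3)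
    (h : Pool.Agent.KS6_69.PN.Base.flip x = hh G p i) :
    gg G x = hh G p (i + 1) := by
  rw [Equiv.Perm.mul_apply, h, hh_rot]

theorem ff_new (G : PlaneCubicGraph E) (p : E × Bool) (t : Fin 18) (b : Bool) :
    ff G p (emb G p (Sum.inr (t, b))) = emb G p (rT (Sum.inr (t, !b))) := by
  rw [Equiv.Perm.mul_apply, flip_new, starRot_emb]

theorem same_stp (G : PlaneCubicGraph E) (p : E × Bool) (y : Fin 3 ⊕ (Fin 18 × Bool)) :
    (ff G p).SameCycle (emb G p y) (emb G p (stp y)) := by
  rcases y with i | ⟨t, b⟩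
  · exact Equiv.Perm.SameCycle.refl _ _
  · refine ⟨1, ?_⟩
    rw [zpow_one]
    exact ff_new G p t b

theorem same_iter (G : PlaneCubicGraph E) (p : E × Bool) (n : ℕ) :
    ∀ y : Fin 3 ⊕ (Fin 18 × Bool), (ff G p).SameCycle (emb G p y) (emb G p (stp^[n] y)) := by
  induction n with
  | zero => intro y; exact Equiv.Perm.SameCycle.refl _ _
  | succ n ih =>
    intro y
    rw [Function.iterate_succ_apply]
    exact (same_stp G p y).trans (ih (stp y))

theorem same_tgt (G : PlaneCubicGraph E) (p : E × Bool) (y : Fin 3 ⊕ (Fin 18 × Bool)) :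
    (ff G p).SameCycle (emb G p y) (emb G p (tgt (lt y))) := by
  obtain ⟨n, hn⟩ := T3 y
  rw [← hn]
  exact same_iter G p n.val y

theorem same_old_step (G : PlaneCubicGraph E) (p x : E × Bool) :
    (ff G p).SameCycle (old x) (old (gg G x)) := by
  by_cases h : ∃ i, Pool.Agent.KS6_69.PN.Base.flip x = hh G p i
  · obtain ⟨i, hi⟩ := h
    have h1 : (ff G p).SameCycle (old x) (emb G p (rT (Sum.inl i))) := by
      refine ⟨1, ?_⟩
      rw [zpow_one]
      exact ff_old_leg G p x i hi
    have h2 := same_tgt G p (rT (Sum.inl i))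
    rw [T1] at h2
    have h3 := h1.trans h2
    rw [gg_leg G p x i hi]
    exact h3
  · push Not at h
    refine ⟨1, ?_⟩
    rw [zpow_one]
    exact ff_old_ne G p x h

/-- the old half-edges as classes of faces -/
def oldc (G : PlaneCubicGraph E) (p : E × Bool) :
    Quotient (Equiv.Perm.SameCycle.setoid (gg G)) →
      Quotient (Equiv.Perm.SameCycle.setoid (ff G p)) :=
  Quotient.lift (fun x => Quotient.mk (Equiv.Perm.SameCycle.setoid (ff G p)) (old x))
    (fun x y h => const_of_step (gg G)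
      (fun x => Quotient.mk (Equiv.Perm.SameCycle.setoid (ff G p)) (old x))
      (fun x => Quotient.sound (same_old_step G p x).symm) x y h)

/-- labels of half-edges of `T` -/
def labT (G : PlaneCubicGraph E) (p : E × Bool) :
    Fin 3 ⊕ Fin 6 → Quotient (Equiv.Perm.SameCycle.setoid (gg G)) ⊕ Fin 6
  | Sum.inl j => Sum.inl (Quotient.mk _ (hh G p j))
  | Sum.inr k => Sum.inr k

/-- labels -/
def lab (G : PlaneCubicGraph E) (p : E × Bool) :
    (E ⊕ Fin 18) × Bool → Quotient (Equiv.Perm.SameCycle.setoid (gg G)) ⊕ Fin 6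
  | (Sum.inl e, b) => Sum.inl (Quotient.mk _ (e, b))
  | (Sum.inr t, b) => labT G p (lt (Sum.inr (t, b)))

theorem lab_old (G : PlaneCubicGraph E) (p x : E × Bool) :
    lab G p (old x) = Sum.inl (Quotient.mk _ x) := rfl

theorem lab_emb (G : PlaneCubicGraph E) (p : E × Bool) (y : Fin 3 ⊕ (Fin 18 × Bool)) :
    lab G p (emb G p y) = labT G p (lt y) := by
  rcases y with i | ⟨t, b⟩
  · rw [T0]
    rfl
  · rfl

theorem gg_class (G : PlaneCubicGraph E) (x : E × Bool) :
    Quotient.mk (Equiv.Perm.SameCycle.setoid (gg G)) (gg G x) = Quotient.mk _ x := by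
  apply Quotient.sound
  have h : (gg G).SameCycle x (gg G x) := ⟨1, by rw [zpow_one]⟩
  exact h.symm

theorem lab_step (G : PlaneCubicGraph E) (p : E × Bool) (z : (E ⊕ Fin 18) × Bool) :
    lab G p (ff G p z) = lab G p z := by
  rcases z with ⟨e | t, b⟩
  · change lab G p (ff G p (old (e, b))) = lab G p (old (e, b))
    by_cases h : ∃ i, Pool.Agent.KS6_69.PN.Base.flip (e, b) = hh G p i
    · obtain ⟨i, hi⟩ := h
      rw [ff_old_leg G p _ i hi, lab_emb, T1, lab_old, ← gg_class, gg_leg G p _ i hi]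
      rfl
    · push Not at h
      rw [ff_old_ne G p _ h, lab_old, lab_old, gg_class]
  · change lab G p (ff G p (emb G p (Sum.inr (t, b)))) = lab G p (emb G p (Sum.inr (t, b)))
    rw [ff_new, lab_emb, lab_emb, T2]

/-- the faces of the star product -/
def faceEquiv (G : PlaneCubicGraph E) (p : E × Bool) :
    Quotient (Equiv.Perm.SameCycle.setoid (ff G p)) ≃
      Quotient (Equiv.Perm.SameCycle.setoid (gg G)) ⊕ Fin 6 where
  toFun := Quotient.lift (lab G p) (fun x y h => const_of_step (ff G p) (lab G p) (lab_step G p) x y h)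
  invFun := Sum.elim (oldc G p)
    (fun k => Quotient.mk (Equiv.Perm.SameCycle.setoid (ff G p)) (emb G p (Sum.inr (rep k))))
  left_inv := by
    intro z
    induction z using Quotient.ind with
    | _ z =>
      change Sum.elim (oldc G p) _ (lab G p z) = _
      rcases z with ⟨e | t, b⟩
      · rfl
      · have h := same_tgt G p (Sum.inr (t, b))
        change Sum.elim (oldc G p) _ (labT G p (lt (Sum.inr (t, b)))) =
          Quotient.mk _ (emb G p (Sum.inr (t, b)))
        rcases hl : lt (Sum.inr (t, b)) with j | k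
        · rw [hl] at h
          exact Quotient.sound h.symm
        · rw [hl] at h
          exact Quotient.sound h.symm
  right_inv := by
    rintro (q | k)
    · induction q using Quotient.ind with
      | _ x => rfl
    · change lab G p (emb G p (Sum.inr (rep k))) = _
      rw [lab_emb, T4]
      rfl

theorem star_face (G : PlaneCubicGraph E) (p : E × Bool) :
    Nat.card (Quotient (Equiv.Perm.SameCycle.setoid (starRot G p * Pool.Agent.KS6_69.PN.Base.flip))) =
      Nat.card (Quotient (Equiv.Perm.SameCycle.setoid (G.rot * Pool.Agent.KS6_69.PN.Base.flip))) + 6 := by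
  rw [Nat.card_congr (faceEquiv G p), Nat.card_sum, Nat.card_eq_fintype_card (α := Fin 6),
    Fintype.card_fin]

end Pool.Agent.KS6_69.PN.Y291
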