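import Mathlib
import Pool.Agent.KS6_69.PN.Defs

set_option autoImplicit false
set_option linter.unusedSectionVars false

/-! # Project PN, job LAB: the Penrose polynomial as a sum over labellings -/

namespace Pool.Agent.KS6_69.PN.Y369

open Polynomial Pool.Agent.KS6_69.PN.Base Pool.Agent.KS6_69.PN.Y494

variable {E : Type} [Fintype E] [DecidableEq E]


theorem card_respect {X : Type} [Finite X] (r : X → X → Prop) (N : ℕ) :
    Nat.card {l : X → Fin N // ∀ x y, r x y → l x = l y} =
      N ^ Nat.card (Quotient (Relation.EqvGen.setoid r)) := by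
  have hgen : ∀ (l : X → Fin N), (∀ x y, r x y → l x = l y) → ∀ x y,
      Relation.EqvGen r x y → l x = l y := by
    intro l hl x y h
    induction h with
    | rel x y h => exact hl x y h
    | refl x => rfl
    | symm x y _ ih => exact ih.symm
    | trans x y z _ _ ih1 ih2 => exact ih1.trans ih2
  let e : (Quotient (Relation.EqvGen.setoid r) → Fin N) ≃
      {l : X → Fin N // ∀ x y, r x y → l x = l y} :=
    { toFun := fun f => ⟨fun x => f (Quotient.mk _ x),
        fun x y h => congrArg f (Quotient.sound (Relation.EqvGen.rel x y h))⟩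
      invFun := fun l => Quotient.lift l.1 (fun x y h => hgen l.1 l.2 x y h)
      left_inv := by
        intro f
        funext q
        induction q using Quotient.ind
        rfl
      right_inv := by
        intro l
        rfl }
  rw [← Nat.card_congr e, Nat.card_fun, Nat.card_eq_fintype_card (α := Fin N), Fintype.card_fin]

theorem respects_iff (G : PlaneCubicGraph E) {N : ℕ} (s : E → Bool) (l : E × Bool → Fin N) :
    (∀ x y, G.Joined s x y → l x = l y) ↔ ∀ e : E,
      if s e = true then l (e, false) = l (e, true) ∧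
        l (G.rot.symm (e, false)) = l (G.rot.symm (e, true))
      else l (e, false) = l (G.rot.symm (e, true)) ∧ l (e, true) = l (G.rot.symm (e, false)) := by
  constructor
  · intro h e
    split_ifs with hs
    · refine ⟨h _ _ ⟨(e, false), ?_⟩, h _ _ ⟨(e, false), ?_⟩⟩
      · rw [if_pos hs]; exact Or.inl ⟨rfl, rfl⟩
      · rw [if_pos hs]; exact Or.inr ⟨rfl, rfl⟩
    · refine ⟨h _ _ ⟨(e, false), ?_⟩, h _ _ ⟨(e, true), ?_⟩⟩
      · rw [if_neg hs]; exact ⟨rfl, rfl⟩
      · rw [if_neg hs]; exact ⟨rfl, rfl⟩
  · rintro h x y ⟨⟨e, b⟩, hj⟩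
    have he := h e
    by_cases hs : s e = true
    · rw [if_pos hs] at he
      rw [if_pos hs] at hj
      cases b
      · rcases hj with ⟨rfl, rfl⟩ | ⟨rfl, rfl⟩
        · exact he.1
        · exact he.2
      · rcases hj with ⟨rfl, rfl⟩ | ⟨rfl, rfl⟩
        · exact he.1.symm
        · exact he.2.symm
    · rw [if_neg hs] at he
      rw [if_neg hs] at hj
      cases b
      · obtain ⟨rfl, rfl⟩ := hj
        exact he.1
      · obtain ⟨rfl, rfl⟩ := hj
        exact he.2

/-- the weight of an edge with a given state -/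
def ew (G : PlaneCubicGraph E) {N : ℕ} (l : E × Bool → Fin N) (e : E) (b : Bool) : ℤ :=
  if (if b = true then l (e, false) = l (e, true) ∧
        l (G.rot.symm (e, false)) = l (G.rot.symm (e, true))
      else l (e, false) = l (G.rot.symm (e, true)) ∧ l (e, true) = l (G.rot.symm (e, false)))
  then (if b = true then -1 else 1) else 0

theorem pow_curves (G : PlaneCubicGraph E) (N : ℕ) (s : E → Bool) :
    (-1 : ℤ) ^ (Finset.univ.filter fun e => s e = true).card * (N : ℤ) ^ G.curves s =
      ∑ l : E × Bool → Fin N, ∏ e : E, ew G l e (s e) := by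
  classical
  have h1 : (N : ℤ) ^ G.curves s = ∑ l : E × Bool → Fin N,
      if (∀ x y, G.Joined s x y → l x = l y) then (1 : ℤ) else 0 := by
    have h2 := card_respect (G.Joined s) N
    rw [Nat.card_eq_fintype_card, Fintype.card_subtype] at h2
    rw [Finset.sum_boole, h2]
    push_cast
    rfl
  have h3 : (-1 : ℤ) ^ (Finset.univ.filter fun e => s e = true).card =
      ∏ e : E, if s e = true then (-1 : ℤ) else 1 := by
    rw [Finset.prod_ite]
    simp
  rw [h1, Finset.mul_sum]
  refine Finset.sum_congr rfl fun l _ => ?_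
  by_cases hl : ∀ x y, G.Joined s x y → l x = l y
  · rw [if_pos hl, mul_one, h3]
    refine Finset.prod_congr rfl fun e _ => ?_
    unfold ew
    rw [if_pos ((respects_iff G s l).1 hl e)]
  · rw [if_neg hl, mul_zero]
    rw [respects_iff, not_forall] at hl
    obtain ⟨e, he⟩ := hl
    refine (Finset.prod_eq_zero (Finset.mem_univ e) ?_).symm
    unfold ew
    rw [if_neg he]

theorem ew_sum (G : PlaneCubicGraph E) {N : ℕ} (l : E × Bool → Fin N) (e : E) :
    ∑ b : Bool, ew G l e b =
      wt (l (e, false)) (l (G.rot.symm (e, false))) (l (e, true)) (l (G.rot.symm (e, true))) := by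
  rw [Fintype.sum_bool]
  unfold ew wt
  simp only [if_true, Bool.false_eq_true, if_false]
  split_ifs <;> norm_num

theorem penrose_lab (G : PlaneCubicGraph E) (N : ℕ) :
    G.penrose.eval (N : ℤ) = ∑ l : E × Bool → Fin N, ∏ e : E,
      wt (l (e, false)) (l (G.rot.symm (e, false))) (l (e, true)) (l (G.rot.symm (e, true))) := by
  have h1 : G.penrose.eval (N : ℤ) = ∑ s : E → Bool,
      (-1 : ℤ) ^ (Finset.univ.filter fun e => s e = true).card * (N : ℤ) ^ G.curves s := by
    unfold PlaneCubicGraph.penrose
    rw [eval_finsetSum]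
    refine Finset.sum_congr rfl fun s _ => ?_
    rw [eval_mul, eval_pow, eval_pow, eval_neg, eval_one, eval_X]
  rw [h1, Finset.sum_congr rfl fun s _ => pow_curves G N s, Finset.sum_comm]
  refine Finset.sum_congr rfl fun l _ => ?_
  rw [← Finset.prod_congr rfl fun e _ => ew_sum G l e, Finset.prod_univ_sum,
    Fintype.piFinset_univ]

end Pool.Agent.KS6_69.PN.Y369
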