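import Mathlib
import Pool.Agent.KS6_69.PN.Defs

/-!
# Project PN: the parity lemma and the symmetry of the colour counts
-/

set_option autoImplicit false
set_option linter.unusedSectionVars false

namespace Pool.Agent.KS6_69.PN.Y494

open Polynomial Pool.Agent.KS6_69.PN.Base

variable {E : Type} [Fintype E] [DecidableEq E]

theorem three_neq (a b c x : Fin 3) (h1 : a ≠ b) (h2 : b ≠ c) (h3 : c ≠ a) :
    (if a = x then 1 else 0) + (if b = x then 1 else 0) + (if c = x then 1 else 0) = 1 := by
  revert a b c x
  decide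

theorem par_fin (q : Fin 3 → Fin 3) (h : ∀ a b : Fin 3, (∑ i, if q i = a then 1 else 0) % 2 =
    (∑ i, if q i = b then 1 else 0) % 2) : Function.Injective q := by
  revert q
  decide

theorem colG_par (G : PlaneCubicGraph E) (p : E × Bool) (q : Fin 3 → Fin 3)
    (h : colG G p q ≠ 0) : Function.Injective q := by
  obtain ⟨⟨c, hq, hc⟩⟩ : Nonempty {c : E → Fin 3 // (∀ i, c (hh G p i).1 = q i) ∧
      ∀ x, (∀ i, x ≠ hh G p i) → c x.1 ≠ c (G.rot x).1} := (Nat.card_ne_zero.1 h).1
  set L : Finset (E × Bool) := Finset.univ.filter fun x => ∀ i, x ≠ hh G p i with hL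
  have hmem : ∀ x, x ∈ L ↔ ∀ i, x ≠ hh G p i := fun x => by simp [hL]
  have hrot : ∀ f : E × Bool → ℕ, ∑ x ∈ L, f (G.rot x) = ∑ x ∈ L, f x := by
    intro f
    refine Finset.sum_nbij' (fun x => G.rot x) (fun x => G.rot.symm x) ?_ ?_ ?_ ?_ ?_
    · intro x hx; rw [hmem] at hx ⊢; exact rot_ne_hh G p x hx
    · intro x hx; rw [hmem] at hx ⊢; exact symm_ne_hh G p x hx
    · intro x _; simp
    · intro x _; simp
    · intro x _; rfl
  have hA : ∀ a : Fin 3, 3 * ∑ x ∈ L, (if c x.1 = a then 1 else 0) = L.card := by
    intro a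
    have e1 := hrot fun x => if c x.1 = a then 1 else 0
    have e2 := hrot fun x => if c (G.rot x).1 = a then 1 else 0
    have e3 : ∑ x ∈ L, ((if c x.1 = a then 1 else 0) + (if c (G.rot x).1 = a then 1 else 0) +
        (if c (G.rot (G.rot x)).1 = a then 1 else 0)) = L.card := by
      rw [Finset.card_eq_sum_ones]
      refine Finset.sum_congr rfl fun x hx => ?_
      rw [hmem] at hx
      have hx1 := rot_ne_hh G p x hx
      have hx2 := rot_ne_hh G p _ hx1
      have n1 := hc x hx
      have n2 := hc _ hx1
      have n3 := hc _ hx2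
      rw [(G.cubic x).1] at n3
      exact three_neq _ _ _ a n1 n2 n3
    rw [Finset.sum_add_distrib, Finset.sum_add_distrib] at e3
    omega
  have hB : ∀ a : Fin 3, ∑ x ∈ L, (if c x.1 = a then 1 else 0) + ∑ i, (if q i = a then 1 else 0) =
      2 * ∑ e : E, (if c e = a then 1 else 0) := by
    intro a
    have e1 : ∑ x : E × Bool, (if c x.1 = a then 1 else 0) =
        2 * ∑ e : E, (if c e = a then 1 else 0) := by
      rw [Fintype.sum_prod_type, Finset.mul_sum]
      refine Finset.sum_congr rfl fun e _ => ?_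
      rw [Fintype.sum_bool]
      ring
    have e2 : ∑ x ∈ Finset.univ.filter (fun x => ¬ ∀ i, x ≠ hh G p i),
        (if c x.1 = a then 1 else 0) = ∑ i, (if q i = a then 1 else 0) := by
      symm
      refine Finset.sum_bij (fun i _ => hh G p i) ?_ ?_ ?_ ?_
      · intro i _; simp
      · intro i _ j _ hij; exact hh_inj G p hij
      · intro x hx
        simp only [Finset.mem_filter, Finset.mem_univ, true_and] at hx
        push Not at hx
        obtain ⟨i, hi⟩ := hx
        exact ⟨i, Finset.mem_univ _, hi.symm⟩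
      · intro i _; rw [hq i]
    rw [← e1, ← e2, hL]
    exact Finset.sum_filter_add_sum_filter_not _ _ _
  apply par_fin
  intro a b
  have h1 := hA a
  have h2 := hA b
  have h3 := hB a
  have h4 := hB b
  omega

theorem colG_perm (G : PlaneCubicGraph E) (p : E × Bool) (π : Equiv.Perm (Fin 3))
    (q : Fin 3 → Fin 3) : colG G p (π ∘ q) = colG G p q := by
  unfold colG
  refine (Nat.card_congr (Equiv.subtypeEquiv ((Equiv.refl E).arrowCongr π) ?_)).symm
  intro c
  simp only [Equiv.arrowCongr_apply, Equiv.refl_symm, Equiv.coe_refl,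
    EmbeddingLike.apply_eq_iff_eq, ne_eq, Function.comp, id_eq]

theorem colG_inj (G : PlaneCubicGraph E) (p : E × Bool) (q : Fin 3 → Fin 3)
    (hq : Function.Injective q) : colG G p q = colG G p id := by
  have hb : Function.Bijective q := ⟨hq, Finite.injective_iff_surjective.1 hq⟩
  exact colG_perm G p (Equiv.ofBijective q hb) id

theorem card_inj : ∑ q : Fin 3 → Fin 3, (if Function.Injective q then 1 else 0) = 6 := by
  decide +kernel

theorem col_mul (G : PlaneCubicGraph E) (p : E × Bool) : ∃ α : ℕ,
    ∑ q : Fin 3 → Fin 3, colG G p q * colT q =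
      α * ∑ q : Fin 3 → Fin 3, (if Function.Injective q then colT q else 0) ∧
    ∑ q : Fin 3 → Fin 3, (if Function.Injective q then colG G p q else 0) = α * 6 := by
  refine ⟨colG G p id, ?_, ?_⟩
  · rw [Finset.mul_sum]
    refine Finset.sum_congr rfl fun q _ => ?_
    by_cases hq : Function.Injective q
    · rw [if_pos hq, colG_inj G p q hq]
    · rw [if_neg hq]
      have : colG G p q = 0 := by
        by_contra h
        exact hq (colG_par G p q h)
      rw [this, zero_mul, mul_zero]
  · rw [← card_inj, Finset.mul_sum]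
    refine Finset.sum_congr rfl fun q _ => ?_
    by_cases hq : Function.Injective q
    · rw [if_pos hq, if_pos hq, colG_inj G p q hq, mul_one]
    · rw [if_neg hq, if_neg hq, mul_zero]

end Pool.Agent.KS6_69.PN.Y494
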