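import Mathlib
import Pool.Agent.KS6_69.PN.Defs
import Pool.Agent.KS6_69.PN.Lab
import Pool.Agent.KS6_69.PN.Tri
import Pool.Agent.KS6_69.PN.Anti
import Pool.Agent.KS6_69.PN.Even
import Pool.Agent.KS6_69.PN.Star
import Pool.Agent.KS6_69.PN.SelfSum
import Pool.Agent.KS6_69.PN.ColA
import Pool.Agent.KS6_69.PN.Colb
import Pool.Agent.KS6_69.PN.Conn
import Pool.Agent.KS6_69.PN.Vert
import Pool.Agent.KS6_69.PN.Face
import Pool.Agent.KS6_69.PN.Theta
import Pool.Agent.KS6_69.PN.Iso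
import Pool.Agent.KS6_69.PN.Par

/-!
# Project PN: assembly

The star product of a loopless connected plane cubic graph with the piece `T` multiplies the number
of 3-edge-colourings by 9 and the value of the Penrose polynomial at `-1` by 13161.
-/

set_option autoImplicit false

namespace Pool.Agent.KS6_69.PN.Y494

open Polynomial Pool.Agent.KS6_69.PN.Base
open Pool.Agent.KS6_69.PN.Y210 Pool.Agent.KS6_69.PN.Y291 Pool.Agent.KS6_69.PN.Y369 Pool.Agent.KS6_69.PN.Y38 Pool.Agent.KS6_69.PN.Y406 Pool.Agent.KS6_69.PN.Y43 Pool.Agent.KS6_69.PN.Y47 Pool.Agent.KS6_69.PN.Y528 Pool.Agent.KS6_69.PN.Y65 Pool.Agent.KS6_69.PN.Y810 Pool.Agent.KS6_69.PN.Y917 Pool.Agent.KS6_69.PN.Y945 Pool.Agent.KS6_69.PN.Y975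

section
variable {E : Type} [Fintype E] [DecidableEq E]

theorem star_exists (G : PlaneCubicGraph E) (p : E × Bool) :
    ∃ S : PlaneCubicGraph (E ⊕ Fin 18), S.rot = starRot G p := by
  refine ⟨⟨starRot G p, star_cubic G p, star_conn G p, ?_⟩, rfl⟩
  have h := G.planar
  rw [star_vert G p (star_cubic G p), star_face G p]
  have hE : Nat.card (E ⊕ Fin 18) = Nat.card E + 18 := by
    rw [Nat.card_sum, Nat.card_eq_fintype_card (α := Fin 18), Fintype.card_fin]
  rw [hE]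
  omega

theorem pen_eval (G : PlaneCubicGraph E) (p : E × Bool) (N : ℕ) :
    G.penrose.eval (N : ℤ) = ∑ u, ∑ v, KK G p N u v * YY N u v := by
  rw [penrose_lab, self_sum G p N]

theorem pen_star_eval (G : PlaneCubicGraph E) (p : E × Bool) (S : PlaneCubicGraph (E ⊕ Fin 18))
    (hS : S.rot = starRot G p) (N : ℕ) :
    S.penrose.eval (N : ℤ) = ∑ u, ∑ v, KK G p N u v * TT N u v := by
  rw [penrose_lab, ← star_sum G p N, hS]

theorem poly_eq (P Q : ℤ[X]) (h : ∀ N : ℕ, P.eval (N : ℤ) = Q.eval (N : ℤ)) : P = Q := by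
  refine Polynomial.eq_of_infinite_eval_eq P Q ?_
  refine Set.Infinite.mono (s := Set.range (fun n : ℕ => (n : ℤ))) ?_
    (Set.infinite_range_of_injective Nat.cast_injective)
  rintro _ ⟨n, rfl⟩
  exact h n

theorem pen_mul {E₁ : Type} [Fintype E₁] [DecidableEq E₁] (G : PlaneCubicGraph E) (p : E × Bool)
    (S : PlaneCubicGraph (E ⊕ Fin 18)) (hS : S.rot = starRot G p)
    (G₁ : PlaneCubicGraph E₁) (p₁ : E₁ × Bool)
    (S₁ : PlaneCubicGraph (E₁ ⊕ Fin 18)) (hS₁ : S₁.rot = starRot G₁ p₁) :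
    S.penrose * G₁.penrose = G.penrose * S₁.penrose := by
  apply poly_eq
  intro N
  obtain ⟨τ, hτ⟩ := tri N
  obtain ⟨κ, hκ⟩ := hτ (KK G p N) (KK_anti G p N) (KK_even G p N) (KK_perm G p N)
  obtain ⟨κ₁, hκ₁⟩ := hτ (KK G₁ p₁ N) (KK_anti G₁ p₁ N) (KK_even G₁ p₁ N) (KK_perm G₁ p₁ N)
  rw [eval_mul, eval_mul, pen_star_eval G p S hS, pen_star_eval G₁ p₁ S₁ hS₁, pen_eval G p,
    pen_eval G₁ p₁, hκ, hκ, hκ₁, hκ₁]
  ring

theorem col_mul' {E₁ : Type} [Fintype E₁] [DecidableEq E₁] (G : PlaneCubicGraph E) (hG : Loopless G)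
    (p : E × Bool) (S : PlaneCubicGraph (E ⊕ Fin 18)) (hS : S.rot = starRot G p)
    (G₁ : PlaneCubicGraph E₁) (hG₁ : Loopless G₁) (p₁ : E₁ × Bool)
    (S₁ : PlaneCubicGraph (E₁ ⊕ Fin 18)) (hS₁ : S₁.rot = starRot G₁ p₁) :
    S.numColourings * G₁.numColourings = G.numColourings * S₁.numColourings := by
  have hSl : Loopless S := by
    intro x; rw [hS]; exact star_loopless G hG p x
  have hSl₁ : Loopless S₁ := by
    intro x; rw [hS₁]; exact star_loopless G₁ hG₁ p₁ x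
  obtain ⟨α, h1, h2⟩ := col_mul G p
  obtain ⟨α₁, h3, h4⟩ := col_mul G₁ p₁
  rw [col_eq S hSl, col_eq S₁ hSl₁, hS, hS₁, col_star, col_star, col_self G hG p,
    col_self G₁ hG₁ p₁, h1, h2, h3, h4]
  ring
end


theorem base₀ : ∃ (E : Type) (_ : Fintype E) (_ : DecidableEq E) (G : PlaneCubicGraph E),
    Nat.card E = 21 ∧ Loopless G ∧ G.numColourings = 54 ∧ G.penrose.eval (-1) = -78966 :=
  ⟨Fin 21, inferInstance, inferInstance, G₀, Nat.card_fin 21, G₀_loopless, numColourings_eq,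
    penrose_eval⟩

theorem polyArith (A B C D : ℤ[X]) (h : A * B = C * D) (h1 : B.eval (-1) = -6)
    (h2 : D.eval (-1) = -78966) :
    A.eval (-1) * (-6) = C.eval (-1) * (-78966) := by
  have h := congrArg (fun P => Polynomial.eval (-1) P) h
  simp only [eval_mul] at h
  rw [h1, h2] at h
  exact h

theorem natArith (a b c d : ℕ) (h : a * b = c * d) (hb : b = 6) (hd : d = 54) :
    a * 6 = c * 54 := by
  rw [hb, hd] at h
  exact h

theorem step₀ (E : Type) [Fintype E] [DecidableEq E] (G : PlaneCubicGraph E) (p : E × Bool)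
    (hG : Loopless G) : ∃ S : PlaneCubicGraph (E ⊕ Fin 18), Loopless S ∧
      S.numColourings * 6 = G.numColourings * 54 ∧
      S.penrose.eval (-1) * (-6) = G.penrose.eval (-1) * (-78966) := by
  obtain ⟨θ, hθ⟩ := theta_ex
  obtain ⟨hθl, hθc, hθp⟩ := theta_val θ hθ
  obtain ⟨S, hS⟩ := star_exists G p
  obtain ⟨S₁, hS₁⟩ := star_exists θ (0, false)
  obtain ⟨h1, h2⟩ := theta_star θ hθ S₁ hS₁
  have hSl : Loopless S := by
    intro x; rw [hS]; exact star_loopless G hG _ x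
  exact ⟨S, hSl, natArith _ _ _ _ (col_mul' G hG p S hS θ hθl (0, false) S₁ hS₁) hθc
    (h1.trans numColourings_eq), polyArith _ _ _ _ (pen_mul G p S hS θ (0, false) S₁ hS₁) hθp
    ((congrArg (fun P => Polynomial.eval (-1) P) h2).trans penrose_eval)⟩

theorem chain (n : ℕ) : ∃ (E : Type) (_ : Fintype E) (_ : DecidableEq E) (G : PlaneCubicGraph E),
    Nat.card E = 21 + 18 * n ∧ Loopless G ∧ G.numColourings = 54 * 9 ^ n ∧
      G.penrose.eval (-1) = -78966 * 13161 ^ n := by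
  induction n with
  | zero =>
    obtain ⟨E, hF, hD, G, hE, hG, hc, hp⟩ := base₀
    exact ⟨E, hF, hD, G, by rw [hE], hG, by rw [hc]; norm_num, by rw [hp]; norm_num⟩
  | succ n ih =>
    obtain ⟨E, hF, hD, G, hE, hG, hc, hp⟩ := ih
    have hne : Nonempty E := by
      apply (Nat.card_pos_iff.1 _).1
      omega
    obtain ⟨e⟩ := hne
    obtain ⟨S, hSl, h1, h2⟩ := step₀ E G (e, false) hG
    refine ⟨E ⊕ Fin 18, inferInstance, inferInstance, S, ?_, hSl, ?_, ?_⟩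
    · rw [Nat.card_sum, hE, Nat.card_fin]
      ring
    · rw [hc] at h1
      have : S.numColourings * 6 = (54 * 9 ^ (n + 1)) * 6 := by rw [h1]; ring
      exact Nat.eq_of_mul_eq_mul_right (by norm_num) this
    · rw [hp] at h2
      have : S.penrose.eval (-1) * (-6) = (-78966 * 13161 ^ (n + 1)) * (-6) := by
        rw [h2]; ring
      exact mul_right_cancel₀ (by norm_num) this

theorem ndvd (D n : ℕ) (hD : 1 ≤ D) (hn : D < 3 ^ (n + 1)) :
    ¬ (((54 * 9 ^ n : ℕ) : ℤ) ∣ (D : ℤ) * (-78966 * 13161 ^ n)) := by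
  intro h
  have h1 : ((3 : ℤ) ^ (2 * n + 3)) ∣ (D : ℤ) * (-78966 * 13161 ^ n) := by
    refine dvd_trans ⟨2, ?_⟩ h
    push_cast
    rw [pow_add, pow_mul]
    ring
  have h2 : (D : ℤ) * (-78966 * 13161 ^ n) = (3 : ℤ) ^ (n + 2) * (-(D * (2 * 4387 ^ (n + 1)))) := by
    have : (13161 : ℤ) = 3 * 4387 := by norm_num
    rw [this, mul_pow, pow_succ (4387 : ℤ), pow_add]
    ring
  rw [h2, show 2 * n + 3 = (n + 2) + (n + 1) by ring, pow_add] at h1
  have h3 : (3 : ℤ) ^ (n + 1) ∣ -(D * (2 * 4387 ^ (n + 1))) :=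
    Int.dvd_of_mul_dvd_mul_left (by positivity) h1 |> id
  rw [dvd_neg] at h3
  have hcop : IsCoprime ((3 : ℤ) ^ (n + 1)) (2 * 4387 ^ (n + 1)) := by
    apply IsCoprime.pow_left
    apply IsCoprime.mul_right
    · exact ⟨1, -1, by norm_num⟩
    · apply IsCoprime.pow_right
      exact ⟨-1462, 1, by norm_num⟩
  have h4 : (3 : ℤ) ^ (n + 1) ∣ (D : ℤ) := hcop.dvd_of_dvd_mul_right h3
  have h5 := Int.le_of_dvd (by exact_mod_cast hD) h4
  have h6 : (D : ℤ) < 3 ^ (n + 1) := by exact_mod_cast hn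
  omega

end Pool.Agent.KS6_69.PN.Y494
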