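import Mathlib
import Pool.Agent.KS6_69.PN.Defs

/-!
# Project PN: isomorphic rotation systems; the star product of the theta graph is `G₀`
-/

set_option autoImplicit false

namespace Pool.Agent.KS6_69.PN.Y65

open Polynomial Pool.Agent.KS6_69.PN.Base Pool.Agent.KS6_69.PN.Y494

variable {E : Type} [Fintype E] [DecidableEq E]

/-! ### isomorphisms -/

theorem eqvGen_map {α β : Type} {r : α → α → Prop} {r' : β → β → Prop} (f : α → β)
    (h : ∀ x y, r x y → r' (f x) (f y)) {x y : α} (hxy : Relation.EqvGen r x y) :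
    Relation.EqvGen r' (f x) (f y) := by
  induction hxy with
  | rel x y hxy => exact Relation.EqvGen.rel _ _ (h x y hxy)
  | refl x => exact Relation.EqvGen.refl _
  | symm x y _ ih => exact Relation.EqvGen.symm _ _ ih
  | trans x y z _ _ ih1 ih2 => exact Relation.EqvGen.trans _ _ _ ih1 ih2

section iso

variable {E' : Type} [Fintype E'] [DecidableEq E'] (σ : E ≃ E') (G : PlaneCubicGraph E)
  (G' : PlaneCubicGraph E')

/-- the map of the half-edges -/
def tau : E × Bool ≃ E' × Bool := Equiv.prodCongr σ (Equiv.refl Bool)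

theorem tau_apply (x : E × Bool) : tau σ x = (σ x.1, x.2) := rfl

theorem tau_flip (x : E × Bool) : flip (tau σ x) = tau σ (flip x) := rfl

variable (h : ∀ x : E × Bool, G'.rot (tau σ x) = tau σ (G.rot x))

include h

theorem rot_symm (x : E × Bool) : G'.rot.symm (tau σ x) = tau σ (G.rot.symm x) := by
  rw [Equiv.symm_apply_eq, h, Equiv.apply_symm_apply]

theorem sameCycle (x y : E × Bool) :
    G'.rot.SameCycle (tau σ x) (tau σ y) ↔ G.rot.SameCycle x y := by
  have h1 : G'.rot = (tau σ).permCongrHom G.rot := by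
    apply Equiv.ext
    intro z
    obtain ⟨w, rfl⟩ := (tau σ).surjective z
    rw [h]
    show _ = (tau σ) (G.rot ((tau σ).symm ((tau σ) w)))
    rw [Equiv.symm_apply_apply]
  have h2 : ∀ i : ℤ, (G'.rot ^ i) (tau σ x) = tau σ ((G.rot ^ i) x) := by
    intro i
    rw [h1, ← map_zpow]
    show (tau σ) ((G.rot ^ i) ((tau σ).symm ((tau σ) x))) = _
    rw [Equiv.symm_apply_apply]
  constructor
  · rintro ⟨i, hi⟩
    refine ⟨i, (tau σ).injective ?_⟩
    rw [← h2, hi]
  · rintro ⟨i, hi⟩
    exact ⟨i, by rw [h2, hi]⟩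

theorem numColourings_congr : G.numColourings = G'.numColourings := by
  unfold PlaneCubicGraph.numColourings
  refine Nat.card_congr (Equiv.subtypeEquiv (Equiv.arrowCongr σ (Equiv.refl (Fin 3))) ?_)
  intro c
  constructor
  · intro hc x y hxy hne
    obtain ⟨x, rfl⟩ := (tau σ).surjective x
    obtain ⟨y, rfl⟩ := (tau σ).surjective y
    rw [sameCycle σ G G' h] at hxy
    have h3 := hc x y hxy (fun h4 => hne (by rw [tau_apply, tau_apply, h4]))
    show c (σ.symm (σ x.1)) ≠ c (σ.symm (σ y.1))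
    rw [Equiv.symm_apply_apply, Equiv.symm_apply_apply]
    exact h3
  · intro hc x y hxy hne
    have h3 := hc (tau σ x) (tau σ y) ((sameCycle σ G G' h x y).2 hxy)
      (fun h4 => hne (σ.injective h4))
    have h5 : c (σ.symm (σ x.1)) ≠ c (σ.symm (σ y.1)) := h3
    rw [Equiv.symm_apply_apply, Equiv.symm_apply_apply] at h5
    exact h5

theorem joined (s : E → Bool) (s' : E' → Bool) (hs : ∀ e, s' (σ e) = s e) (x y : E × Bool) :
    G'.Joined s' (tau σ x) (tau σ y) ↔ G.Joined s x y := by
  unfold PlaneCubicGraph.Joined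
  have key : ∀ w : E × Bool, (if s' (tau σ w).1 = true then
      (tau σ x = tau σ w ∧ tau σ y = flip (tau σ w)) ∨
        (tau σ x = G'.rot.symm (tau σ w) ∧ tau σ y = G'.rot.symm (flip (tau σ w)))
      else tau σ x = tau σ w ∧ tau σ y = G'.rot.symm (flip (tau σ w))) ↔
      (if s w.1 = true then
      (x = w ∧ y = flip w) ∨ (x = G.rot.symm w ∧ y = G.rot.symm (flip w))
      else x = w ∧ y = G.rot.symm (flip w)) := by
    intro w
    have h1 : s' (tau σ w).1 = s w.1 := hs w.1
    rw [h1, tau_flip, rot_symm σ G G' h, rot_symm σ G G' h]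
    simp only [EmbeddingLike.apply_eq_iff_eq]
  constructor
  · rintro ⟨w', hw⟩
    obtain ⟨w, rfl⟩ := (tau σ).surjective w'
    exact ⟨w, (key w).1 hw⟩
  · rintro ⟨w, hw⟩
    exact ⟨tau σ w, (key w).2 hw⟩

theorem curves_congr (s : E → Bool) (s' : E' → Bool) (hs : ∀ e, s' (σ e) = s e) :
    G.curves s = G'.curves s' := by
  unfold PlaneCubicGraph.curves
  refine Nat.card_congr (Quotient.congr (tau σ) ?_)
  intro x y
  constructor
  · intro hxy
    exact eqvGen_map (tau σ) (fun a b hab => (joined σ G G' h s s' hs a b).2 hab) hxy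
  · intro hxy
    have h1 := eqvGen_map (r' := G.Joined s) (tau σ).symm (fun a b hab => by
      rw [← joined σ G G' h s s' hs, Equiv.apply_symm_apply, Equiv.apply_symm_apply]
      exact hab) hxy
    rw [Equiv.symm_apply_apply, Equiv.symm_apply_apply] at h1
    exact h1

theorem penrose_congr : G.penrose = G'.penrose := by
  unfold PlaneCubicGraph.penrose
  refine Fintype.sum_equiv (Equiv.arrowCongr σ (Equiv.refl Bool)) _ _ ?_
  intro s
  have hs : ∀ e, (Equiv.arrowCongr σ (Equiv.refl Bool) s) (σ e) = s e := by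
    intro e
    show s (σ.symm (σ e)) = s e
    rw [Equiv.symm_apply_apply]
  rw [curves_congr σ G G' h s _ hs]
  congr 2
  refine Finset.card_bij (fun e _ => σ e) ?_ ?_ ?_
  · intro e he
    rw [Finset.mem_filter] at he ⊢
    exact ⟨Finset.mem_univ _, by rw [hs]; exact he.2⟩
  · intro e _ e' _ hee
    exact σ.injective hee
  · intro e' he'
    rw [Finset.mem_filter] at he'
    refine ⟨σ.symm e', ?_, Equiv.apply_symm_apply _ _⟩
    rw [Finset.mem_filter]
    refine ⟨Finset.mem_univ _, ?_⟩
    have := hs (σ.symm e')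
    rw [Equiv.apply_symm_apply] at this
    rw [← this]
    exact he'.2

end iso

/-! ### the theta graph -/

/-- numbering of the edges of the star product -/
def sgF : Fin 3 ⊕ Fin 18 → Fin 21 :=
  Sum.elim ![4, 7, 6] ![0, 1, 2, 3, 5, 8, 9, 10, 11, 12, 13, 14, 15, 16, 17, 18, 19, 20]

/-- the inverse -/
def sgI : Fin 21 → Fin 3 ⊕ Fin 18 :=
  ![Sum.inr 0, Sum.inr 1, Sum.inr 2, Sum.inr 3, Sum.inl 0, Sum.inr 4, Sum.inl 2, Sum.inl 1,
    Sum.inr 5, Sum.inr 6, Sum.inr 7, Sum.inr 8, Sum.inr 9, Sum.inr 10, Sum.inr 11, Sum.inr 12,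
    Sum.inr 13, Sum.inr 14, Sum.inr 15, Sum.inr 16, Sum.inr 17]

/-- numbering of the edges of the star product -/
def sg : Fin 3 ⊕ Fin 18 ≃ Fin 21 where
  toFun := sgF
  invFun := sgI
  left_inv := by unfold Function.LeftInverse; decide +kernel
  right_inv := by unfold Function.RightInverse Function.LeftInverse; decide +kernel

/-- the legs -/
def hhT : Fin 3 → Fin 3 × Bool :=
  ![(0, false), rotTheta (0, false), rotTheta (rotTheta (0, false))]

/-- the embedding of `T` -/
def embT : Fin 3 ⊕ (Fin 18 × Bool) → (Fin 3 ⊕ Fin 18) × Bool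
  | Sum.inl i => old (hhT i)
  | Sum.inr h => (Sum.inr h.1, h.2)

/-- the sides -/
def sideT : (Fin 3 ⊕ Fin 18) × Bool → (Fin 3 × Bool) ⊕ (Fin 3 ⊕ (Fin 18 × Bool))
  | (Sum.inl e, b) =>
    if (e, b) = ((0, false) : Fin 3 × Bool) then Sum.inr (Sum.inl 0) else
    if (e, b) = rotTheta (0, false) then Sum.inr (Sum.inl 1) else
    if (e, b) = rotTheta (rotTheta (0, false)) then Sum.inr (Sum.inl 2) else Sum.inl (e, b)
  | (Sum.inr t, b) => Sum.inr (Sum.inr (t, b))

/-- the rotation system -/
def starT (z : (Fin 3 ⊕ Fin 18) × Bool) : (Fin 3 ⊕ Fin 18) × Bool :=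
  Sum.elim (fun x => old (rotTheta x)) (fun y => embT (rT y)) (sideT z)

theorem starRot_eq (G : PlaneCubicGraph (Fin 3)) (hG : G.rot = rotTheta)
    (z : (Fin 3 ⊕ Fin 18) × Bool) : starRot G (0, false) z = starT z := by
  have h1 : hh G (0, false) = hhT := by
    unfold hh hhT
    rw [hG]
  have h2 : ∀ y, emb G (0, false) y = embT y := by
    intro y
    rcases y with i | w
    · show old (hh G (0, false) i) = old (hhT i)
      rw [h1]
    · rfl
  have h3 : side G (0, false) z = sideT z := by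
    rcases z with ⟨e | t, b⟩
    · unfold side sideT
      rw [hG]
    · rfl
  show Sum.elim (fun x => old (G.rot x)) (fun y => emb G (0, false) (rT y)) (side G (0, false) z) = _
  unfold starT
  rw [h3, hG]
  congr 1
  funext y
  exact h2 _

theorem check : ∀ z : (Fin 3 ⊕ Fin 18) × Bool,
    rot₀ (sgF z.1, z.2) = (sgF (starT z).1, (starT z).2) := by decide +kernel

theorem theta_star (G : PlaneCubicGraph (Fin 3)) (hG : G.rot = rotTheta)
    (S : PlaneCubicGraph (Fin 3 ⊕ Fin 18)) (hS : S.rot = starRot G (0, false)) :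
    S.numColourings = G₀.numColourings ∧ S.penrose = G₀.penrose := by
  have h : ∀ x, G₀.rot (tau sg x) = tau sg (S.rot x) := by
    intro x
    rw [hS, starRot_eq G hG]
    exact check x
  exact ⟨numColourings_congr sg S G₀ h, penrose_congr sg S G₀ h⟩

theorem G₀_loopless : Loopless G₀ := by
  show ∀ x : Fin 21 × Bool, (rot₀ x).1 ≠ x.1
  decide +kernel

end Pool.Agent.KS6_69.PN.Y65
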