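import Mathlib
import Pool.Agent.KS6_69.PN.Defs

/-!
# Insertion of a triangle at a vertex of a plane cubic graph (adapted from `Defs`)
-/

set_option autoImplicit false
set_option linter.unusedSectionVars false

namespace Pool.Agent.KS6_69.PN.T

open Polynomial Pool.Agent.KS6_69.PN.Base
open Pool.Agent.KS6_69.PN.Y494 (hh hh_rot hh_symm hh_inj rot_ne_hh symm_ne_hh Loopless wt bb KK YY
  rotTheta)

/-! ### The piece `T`: legs `inl i` and internal half-edges `inr (t, b)` -/

def tabR : List ℕ := [5, 7, 1, 8, 3, 6, 0, 2, 4]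

def tabI : List ℕ := [6, 2, 7, 4, 8, 0, 5, 1, 3]

/-- code of a half-edge of `T` -/
def cd : Fin 3 ⊕ (Fin 3 × Bool) → ℕ
  | Sum.inl i => 6 + i.val
  | Sum.inr h => 2 * h.1.val + (if h.2 then 1 else 0)

/-- half-edge of `T` with a given code -/
def dc (k : ℕ) : Fin 3 ⊕ (Fin 3 × Bool) :=
  if k < 6 then Sum.inr (⟨(k / 2) % 3, Nat.mod_lt _ (by norm_num)⟩, k % 2 == 1)
  else Sum.inl ⟨(k - 6) % 3, Nat.mod_lt _ (by norm_num)⟩

/-- The rotation system of `T`. -/
def rT : Equiv.Perm (Fin 3 ⊕ (Fin 3 × Bool)) where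
  toFun y := dc (tabR.getD (cd y) 0)
  invFun y := dc (tabI.getD (cd y) 0)
  left_inv := by unfold Function.LeftInverse; decide +kernel
  right_inv := by unfold Function.RightInverse Function.LeftInverse; decide +kernel

theorem rT_cubic : ∀ y, rT (rT (rT y)) = y ∧ rT y ≠ y := by decide +kernel

variable {E : Type} [Fintype E] [DecidableEq E]

/-- A half-edge of `G` as a half-edge of the star product. -/
def old (x : E × Bool) : (E ⊕ Fin 3) × Bool := (Sum.inl x.1, x.2)

/-- A half-edge of `T` as a half-edge of the star product: the leg `i` is the half-edge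
`hh G p i`. -/
def emb (G : PlaneCubicGraph E) (p : E × Bool) :
    Fin 3 ⊕ (Fin 3 × Bool) → (E ⊕ Fin 3) × Bool
  | Sum.inl i => old (hh G p i)
  | Sum.inr h => (Sum.inr h.1, h.2)

/-- The side of `T` to which a half-edge of the star product belongs: `inl x` for an old half-edge
which does not end at the endpoint of `p`, and `inr y` for a half-edge of `T`. -/
def side (G : PlaneCubicGraph E) (p : E × Bool) :
    (E ⊕ Fin 3) × Bool → (E × Bool) ⊕ (Fin 3 ⊕ (Fin 3 × Bool))
  | (Sum.inl e, b) =>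
    if (e, b) = p then Sum.inr (Sum.inl 0) else
    if (e, b) = G.rot p then Sum.inr (Sum.inl 1) else
    if (e, b) = G.rot (G.rot p) then Sum.inr (Sum.inl 2) else Sum.inl (e, b)
  | (Sum.inr t, b) => Sum.inr (Sum.inr (t, b))

theorem side_old_of_ne (G : PlaneCubicGraph E) (p x : E × Bool) (h : ∀ i, x ≠ hh G p i) :
    side G p (old x) = Sum.inl x := by
  have h0 := h 0
  have h1 := h 1
  have h2 := h 2
  simp only [hh, Matrix.cons_val_zero, Matrix.cons_val_one, Matrix.cons_val] at h0 h1 h2
  simp [side, old, h0, h1, h2]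

theorem side_emb (G : PlaneCubicGraph E) (p : E × Bool) (y : Fin 3 ⊕ (Fin 3 × Bool)) :
    side G p (emb G p y) = Sum.inr y := by
  have hp := G.cubic p
  have hq := G.cubic (G.rot p)
  have hr := G.cubic (G.rot (G.rot p))
  have e3 : G.rot (G.rot p) ≠ p := fun h => hr.2 (by rw [hp.1, h])
  rcases y with i | ⟨t, b⟩
  · fin_cases i
    · simp [emb, hh, side, old]
    · simp [emb, hh, side, old, hp.2]
    · simp [emb, hh, side, old, hq.2, e3]
  · rfl

theorem side_cases (G : PlaneCubicGraph E) (p : E × Bool) (z : (E ⊕ Fin 3) × Bool) :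
    (∃ x : E × Bool, (∀ i, x ≠ hh G p i) ∧ z = old x) ∨ ∃ y, z = emb G p y := by
  rcases z with ⟨e | t, b⟩
  · by_cases h : ∃ i, (e, b) = hh G p i
    · obtain ⟨i, hi⟩ := h
      exact Or.inr ⟨Sum.inl i, by simp [emb, ← hi, old]⟩
    · push Not at h
      exact Or.inl ⟨(e, b), h, rfl⟩
  · exact Or.inr ⟨Sum.inr (t, b), rfl⟩

/-- The rotation system of the star product of `G` at the endpoint of `p` with `T`. -/
def starRot (G : PlaneCubicGraph E) (p : E × Bool) : Equiv.Perm ((E ⊕ Fin 3) × Bool) where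
  toFun z := Sum.elim (fun x => old (G.rot x)) (fun y => emb G p (rT y)) (side G p z)
  invFun z := Sum.elim (fun x => old (G.rot.symm x)) (fun y => emb G p (rT.symm y)) (side G p z)
  left_inv := by
    intro z
    dsimp only
    rcases side_cases G p z with ⟨x, hx, rfl⟩ | ⟨y, rfl⟩
    · rw [side_old_of_ne G p x hx, Sum.elim_inl, side_old_of_ne G p _ (rot_ne_hh G p x hx),
        Sum.elim_inl, Equiv.symm_apply_apply]
    · rw [side_emb, Sum.elim_inr, side_emb, Sum.elim_inr, Equiv.symm_apply_apply]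
  right_inv := by
    intro z
    dsimp only
    rcases side_cases G p z with ⟨x, hx, rfl⟩ | ⟨y, rfl⟩
    · rw [side_old_of_ne G p x hx, Sum.elim_inl, side_old_of_ne G p _ (symm_ne_hh G p x hx),
        Sum.elim_inl, Equiv.apply_symm_apply]
    · rw [side_emb, Sum.elim_inr, side_emb, Sum.elim_inr, Equiv.apply_symm_apply]

theorem starRot_old (G : PlaneCubicGraph E) (p x : E × Bool) (h : ∀ i, x ≠ hh G p i) :
    starRot G p (old x) = old (G.rot x) := by
  change Sum.elim _ _ (side G p (old x)) = _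
  rw [side_old_of_ne G p x h, Sum.elim_inl]

theorem starRot_emb (G : PlaneCubicGraph E) (p : E × Bool) (y : Fin 3 ⊕ (Fin 3 × Bool)) :
    starRot G p (emb G p y) = emb G p (rT y) := by
  change Sum.elim _ _ (side G p (emb G p y)) = _
  rw [side_emb, Sum.elim_inr]

theorem starRot_symm_old (G : PlaneCubicGraph E) (p x : E × Bool) (h : ∀ i, x ≠ hh G p i) :
    (starRot G p).symm (old x) = old (G.rot.symm x) := by
  change Sum.elim _ _ (side G p (old x)) = _
  rw [side_old_of_ne G p x h, Sum.elim_inl]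

theorem starRot_symm_emb (G : PlaneCubicGraph E) (p : E × Bool) (y : Fin 3 ⊕ (Fin 3 × Bool)) :
    (starRot G p).symm (emb G p y) = emb G p (rT.symm y) := by
  change Sum.elim _ _ (side G p (emb G p y)) = _
  rw [side_emb, Sum.elim_inr]

theorem flip_old (x : E × Bool) : flip (old x) = old (flip x) := rfl

theorem flip_new (G : PlaneCubicGraph E) (p : E × Bool) (t : Fin 3) (b : Bool) :
    flip (emb G p (Sum.inr (t, b))) = emb G p (Sum.inr (t, !b)) := rfl

/-! ### The sums -/

/-- The sum of the side of `T`. -/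
def TT (N : ℕ) (u v : Fin 3 → Fin N) : ℤ :=
  ∑ m : Fin 3 × Bool → Fin N, if ∀ i, v i = Sum.elim u m (rT.symm (Sum.inl i)) then
    ∏ t : Fin 3, wt (m (t, false)) (Sum.elim u m (rT.symm (Sum.inr (t, false))))
      (m (t, true)) (Sum.elim u m (rT.symm (Sum.inr (t, true)))) else 0

/-- Colourings of the side of `T` with colours `q` at the legs. -/
noncomputable def colT (q : Fin 3 → Fin 3) : ℕ :=
  Nat.card {c : Fin 3 → Fin 3 // ∀ y : Fin 3 ⊕ (Fin 3 × Bool),
    Sum.elim q (fun z => c z.1) y ≠ Sum.elim q (fun z => c z.1) (rT y)}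

end Pool.Agent.KS6_69.PN.T
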