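import Mathlib
import Pool.Agent.KS6_69.PN.TDefs
import Pool.Agent.KS6_69.PN.Par

/-!
# PN-COLB: the star product has no loops; colourings of the star product
-/

set_option autoImplicit false

namespace Pool.Agent.KS6_69.PN.TY38

open Polynomial Pool.Agent.KS6_69.PN.Base Pool.Agent.KS6_69.PN.T
open Pool.Agent.KS6_69.PN.Y494 (hh hh_rot hh_symm hh_inj rot_ne_hh symm_ne_hh Loopless wt bb KK YY
  rotTheta colG colG_perm colG_inj colG_par card_inj)

variable {E : Type} [Fintype E] [DecidableEq E]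

/-- the edge of a half-edge of `T`, or the leg -/
def ty (y : Fin 3 ⊕ (Fin 3 × Bool)) : Fin 3 ⊕ Fin 3 := Sum.map id Prod.fst y

theorem rT_ty : ∀ y : Fin 3 ⊕ (Fin 3 × Bool),
    (ty (rT y) ≠ ty y) ∧ ((ty y).isLeft = true → (ty (rT y)).isLeft = false) := by
  decide +kernel

theorem star_loopless (G : PlaneCubicGraph E) (hG : Loopless G) (p : E × Bool) :
    ∀ x, (starRot G p x).1 ≠ x.1 := by
  intro z
  rcases side_cases G p z with ⟨x, hx, rfl⟩ | ⟨y, rfl⟩
  · rw [starRot_old G p x hx]
    intro h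
    exact hG x (Sum.inl.inj h)
  · rw [starRot_emb]
    have h := rT_ty y
    rcases hy : y with i | ⟨t, b⟩
    · rcases hr : rT (Sum.inl i) with j | ⟨t', b'⟩
      · exfalso
        rw [hy, hr] at h
        have := h.2 rfl
        exact Bool.noConfusion this
      · intro h1
        exact Sum.inr_ne_inl h1
    · rcases hr : rT (Sum.inr (t, b)) with j | ⟨t', b'⟩
      · intro h1
        exact Sum.inl_ne_inr h1
      · intro h1
        rw [hy, hr] at h
        apply h.1
        change (Sum.inr t' : Fin 3 ⊕ Fin 3) = Sum.inr t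
        have h2 : t' = t := Sum.inr.inj h1
        rw [h2]

/-- the condition for the colourings of the star product -/
theorem cond_iff (G : PlaneCubicGraph E) (p : E × Bool) (c : E ⊕ Fin 3 → Fin 3) :
    (∀ x, c x.1 ≠ c (starRot G p x).1) ↔
      (∀ x, (∀ i, x ≠ hh G p i) → c (Sum.inl x.1) ≠ c (Sum.inl (G.rot x).1)) ∧
      ∀ y : Fin 3 ⊕ (Fin 3 × Bool),
        Sum.elim (fun i => c (Sum.inl (hh G p i).1)) (fun z => c (Sum.inr z.1)) y ≠
        Sum.elim (fun i => c (Sum.inl (hh G p i).1)) (fun z => c (Sum.inr z.1)) (rT y) := by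
  have hemb : ∀ y, c (emb G p y).1 =
      Sum.elim (fun i => c (Sum.inl (hh G p i).1)) (fun z => c (Sum.inr z.1)) y := by
    rintro (i | z)
    · rfl
    · rfl
  constructor
  · intro h
    constructor
    · intro x hx
      have := h (old x)
      rw [starRot_old G p x hx] at this
      exact this
    · intro y
      have := h (emb G p y)
      rw [starRot_emb, hemb, hemb] at this
      exact this
  · rintro ⟨h1, h2⟩ z
    rcases side_cases G p z with ⟨x, hx, rfl⟩ | ⟨y, rfl⟩
    · rw [starRot_old G p x hx]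
      exact h1 x hx
    · rw [starRot_emb, hemb, hemb]
      exact h2 y

theorem col_star (G : PlaneCubicGraph E) (p : E × Bool) :
    Nat.card {c : E ⊕ Fin 3 → Fin 3 // ∀ x, c x.1 ≠ c (starRot G p x).1} =
      ∑ q : Fin 3 → Fin 3, colG G p q * colT q := by
  have e : {c : E ⊕ Fin 3 → Fin 3 // ∀ x, c x.1 ≠ c (starRot G p x).1} ≃
      (Σ q : Fin 3 → Fin 3, {c : E → Fin 3 // (∀ i, c (hh G p i).1 = q i) ∧
        ∀ x, (∀ i, x ≠ hh G p i) → c x.1 ≠ c (G.rot x).1} ×
        {c : Fin 3 → Fin 3 // ∀ y : Fin 3 ⊕ (Fin 3 × Bool),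
          Sum.elim q (fun z => c z.1) y ≠ Sum.elim q (fun z => c z.1) (rT y)}) :=
    { toFun := fun c => ⟨fun i => c.1 (Sum.inl (hh G p i).1),
        ⟨⟨fun e => c.1 (Sum.inl e), fun _ => rfl, ((cond_iff G p c.1).1 c.2).1⟩,
          ⟨fun t => c.1 (Sum.inr t), ((cond_iff G p c.1).1 c.2).2⟩⟩⟩
      invFun := fun s => ⟨Sum.elim s.2.1.1 s.2.2.1, by
        rw [cond_iff]
        refine ⟨s.2.1.2.2, ?_⟩
        intro y
        have h1 : (fun i => Sum.elim s.2.1.1 s.2.2.1 (Sum.inl (hh G p i).1)) = s.1 := by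
          funext i
          exact s.2.1.2.1 i
        rw [h1]
        exact s.2.2.2 y⟩
      left_inv := by
        rintro ⟨c, hc⟩
        apply Subtype.ext
        funext w
        rcases w with w | w
        · rfl
        · rfl
      right_inv := by
        rintro ⟨q, ⟨c1, hq, h1⟩, ⟨c2, h2⟩⟩
        obtain rfl : (fun i => c1 (hh G p i).1) = q := funext hq
        rfl }
  rw [Nat.card_congr e, Nat.card_sigma]
  refine Finset.sum_congr rfl fun q _ => ?_
  rw [Nat.card_prod]
  rfl

end Pool.Agent.KS6_69.PN.TY38
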