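import Mathlib
import Pool.Agent.KS6_69.PN.TDefs
import Pool.Agent.KS6_69.PN.Theta
import Pool.Agent.KS6_69.PN.Iso
import Pool.Agent.KS6_69.PN.ColA

/-!
# The star product of the theta graph with the triangle is `K_4`
-/

set_option autoImplicit false

namespace Pool.Agent.KS6_69.PN.TK4

open Polynomial Pool.Agent.KS6_69.PN.Base Pool.Agent.KS6_69.PN.T
open Pool.Agent.KS6_69.PN.Y494 (hh hh_rot hh_symm hh_inj rot_ne_hh symm_ne_hh Loopless wt bb KK YY
  rotTheta)
open Pool.Agent.KS6_69.PN.DP

def ixK (h : Fin 6 × Bool) : ℕ := 2 * h.1.val + (if h.2 then 1 else 0)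

def xiK (k : ℕ) : Fin 6 × Bool := (⟨(k / 2) % 6, Nat.mod_lt _ (by norm_num)⟩, k % 2 == 1)

def rK : Equiv.Perm (Fin 6 × Bool) where
  toFun h := xiK ([6, 5, 8, 1, 10, 3, 11, 2, 7, 4, 9, 0].getD (ixK h) 0)
  invFun h := xiK ([11, 3, 7, 5, 9, 1, 0, 8, 2, 10, 4, 6].getD (ixK h) 0)
  left_inv := by unfold Function.LeftInverse; decide +kernel
  right_inv := by unfold Function.RightInverse Function.LeftInverse; decide +kernel

def K4 : PlaneCubicGraph (Fin 6) where
  rot := rK
  cubic := by decide +kernel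
  connected := by
    have hw : ∀ (w : List Bool), ∀ x : Fin 6 × Bool,
        (∃ g ∈ Subgroup.closure {rK, flip}, g (0, false) = x) →
        ∃ g ∈ Subgroup.closure {rK, flip}, g (0, false) =
          w.foldl (fun x b => if b then rK x else flip x) x := by
      intro w
      induction w with
      | nil => intro x hx; exact hx
      | cons b w ih =>
        rintro x ⟨g, hg, rfl⟩
        apply ih
        cases b with
        | true => exact ⟨rK * g, Subgroup.mul_mem _ (Subgroup.subset_closure (by simp)) hg, rfl⟩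
        | false => exact ⟨Pool.Agent.KS6_69.PN.Base.flip * g, Subgroup.mul_mem _ (Subgroup.subset_closure (by simp)) hg, rfl⟩
    have hs : ∀ x : Fin 6 × Bool, ∃ w : List Bool,
        w.foldl (fun x b => if b then rK x else flip x) (0, false) = x := by
      have : ∀ x : Fin 6 × Bool, ((([[], [false], [true, false, true], [true, false, true, false],
          [false, true, false], [false, true], [true], [true, false],
          [true, false, true, true], [true, true, false, true],
          [true, true, false], [true, true]] : List (List Bool)).getD (ixK x) []).foldl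
          (fun x b => if b then rK x else flip x) (0, false) = x) := by
        decide +kernel
      exact fun x => ⟨_, this x⟩
    have h : ∀ x : Fin 6 × Bool, ∃ g ∈ Subgroup.closure {rK, flip}, g (0, false) = x := by
      intro x
      obtain ⟨w, hx⟩ := hs x
      have := hw w (0, false) ⟨1, Subgroup.one_mem _, rfl⟩
      rw [hx] at this
      exact this
    intro x y
    obtain ⟨g, hg, rfl⟩ := h x
    obtain ⟨g', hg', rfl⟩ := h y
    exact ⟨g' * g⁻¹, Subgroup.mul_mem _ hg' (Subgroup.inv_mem _ hg), by simp⟩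
  planar := by
    have h1 : Nat.card (Quotient (Equiv.Perm.SameCycle.setoid rK)) = 4 := by
      refine card_cycles rK
        (fun x => ⟨[0, 1, 2, 1, 3, 1, 0, 2, 2, 3, 3, 0].getD (ixK x) 0 % 4,
          Nat.mod_lt _ (by norm_num)⟩)
        (fun i => xiK ([0, 1, 2, 4].getD i 0))
        (fun x => [0, 0, 0, 2, 0, 1, 1, 2, 1, 2, 1, 2].getD (ixK x) 0) ?_ ?_ ?_ <;>
        decide +kernel
    have h2 : Nat.card (Quotient (Equiv.Perm.SameCycle.setoid
        (rK * Pool.Agent.KS6_69.PN.Base.flip))) = 4 := by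
      refine card_cycles (rK * Pool.Agent.KS6_69.PN.Base.flip)
        (fun x => ⟨[0, 1, 1, 2, 2, 0, 1, 3, 2, 3, 0, 3].getD (ixK x) 0 % 4,
          Nat.mod_lt _ (by norm_num)⟩)
        (fun i => xiK ([0, 1, 3, 7].getD i 0))
        (fun x => [0, 0, 2, 0, 2, 1, 1, 0, 1, 2, 2, 1].getD (ixK x) 0) ?_ ?_ ?_ <;>
        decide +kernel
    rw [h1, h2, Nat.card_eq_fintype_card, Fintype.card_fin]

/-- the gates -/
def ΓK (e : Fin 6) : Gate (Fin 6 × Bool) :=
  ([((e, false), rK.symm (e, true)), ((e, true), rK.symm (e, false))],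
   [((e, false), (e, true)), (rK.symm (e, false), rK.symm (e, true))])

theorem ixK_inj : Function.Injective ixK := by
  unfold Function.Injective
  decide +kernel

theorem joinedK (s : Fin 6 → Bool) (t u : Fin 6 × Bool) :
    Relation.EqvGen (K4.Joined s) t u ↔
      mergeAll ixK (sel ΓK s) t = mergeAll ixK (sel ΓK s) u := by
  have hG : K4.rot = rK := rfl
  rw [mergeAll_eq_iff]
  constructor
  · refine eqvGen_mono' ?_
    rintro a b ⟨⟨e, c⟩, h⟩
    rw [hG] at h
    have hmem : ∀ p, p ∈ (if s e then (ΓK e).2 else (ΓK e).1) →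
        Relation.EqvGen (fun x y => ixK x = ixK y ∨ (x, y) ∈ sel ΓK s) p.1 p.2 := by
      intro p hp
      exact Relation.EqvGen.rel _ _ (Or.inr ((mem_sel ΓK s p).2 ⟨e, hp⟩))
    cases hs : s e with
    | true =>
      simp only [hs, if_true] at h hmem
      cases c with
      | false =>
        rcases h with ⟨rfl, rfl⟩ | ⟨rfl, rfl⟩
        · exact hmem ((e, false), (e, true)) (by simp [ΓK])
        · exact hmem (rK.symm (e, false), rK.symm (e, true)) (by simp [ΓK])
      | true =>
        rcases h with ⟨rfl, rfl⟩ | ⟨rfl, rfl⟩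
        · exact (hmem ((e, false), (e, true)) (by simp [ΓK])).symm
        · exact (hmem (rK.symm (e, false), rK.symm (e, true)) (by simp [ΓK])).symm
    | false =>
      simp only [hs, Bool.false_eq_true, if_false] at h hmem
      cases c with
      | false =>
        obtain ⟨rfl, rfl⟩ := h
        exact hmem ((e, false), rK.symm (e, true)) (by simp [ΓK])
      | true =>
        obtain ⟨rfl, rfl⟩ := h
        exact hmem ((e, true), rK.symm (e, false)) (by simp [ΓK])
  · refine eqvGen_mono' ?_
    rintro a b (h | h)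
    · rw [ixK_inj h]; exact Relation.EqvGen.refl _
    · rw [mem_sel] at h
      obtain ⟨e, he⟩ := h
      refine Relation.EqvGen.rel _ _ ?_
      cases hs : s e with
      | true =>
        simp only [hs, if_true, ΓK, List.mem_cons, List.not_mem_nil, or_false, Prod.mk.injEq] at he
        rcases he with ⟨rfl, rfl⟩ | ⟨rfl, rfl⟩
        · exact ⟨(e, false), by rw [if_pos hs]; exact Or.inl ⟨rfl, rfl⟩⟩
        · exact ⟨(e, false), by rw [if_pos hs, hG]; exact Or.inr ⟨rfl, rfl⟩⟩
      | false =>
        simp only [hs, Bool.false_eq_true, if_false, ΓK, List.mem_cons, List.not_mem_nil,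
          or_false, Prod.mk.injEq] at he
        rcases he with ⟨rfl, rfl⟩ | ⟨rfl, rfl⟩
        · exact ⟨(e, false), by rw [if_neg (by rw [hs]; simp), hG]; exact ⟨rfl, rfl⟩⟩
        · exact ⟨(e, true), by rw [if_neg (by rw [hs]; simp), hG]; exact ⟨rfl, rfl⟩⟩

theorem curvesK (s : Fin 6 → Bool) :
    K4.curves s = (Finset.univ.image (mergeAll ixK (sel ΓK s))).card := by
  unfold PlaneCubicGraph.curves
  set f := mergeAll ixK (sel ΓK s) with hf
  have e : Quotient (Relation.EqvGen.setoid (K4.Joined s)) ≃ Set.range f := by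
    refine Equiv.ofBijective (Quotient.lift (fun t => (⟨f t, t, rfl⟩ : Set.range f))
      (fun t u h => Subtype.ext ((joinedK s t u).1 h))) ⟨?_, ?_⟩
    · intro a b
      induction a using Quotient.ind
      induction b using Quotient.ind
      intro h
      exact Quotient.sound ((joinedK s _ _).2 (Subtype.ext_iff.1 h))
    · rintro ⟨_, t, rfl⟩
      exact ⟨Quotient.mk _ t, rfl⟩
  rw [Nat.card_congr e, card_range f]

theorem sumK : ∑ s : Fin 6 → Bool, (-1 : ℤ) ^ (Finset.univ.filter fun e => s e = true).card *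
    (-1) ^ (Finset.univ.image (mergeAll ixK (sel ΓK s))).card = 18 := by
  decide +kernel

theorem K4_pen : K4.penrose.eval (-1) = 18 := by
  unfold PlaneCubicGraph.penrose
  rw [eval_finsetSum, ← sumK]
  refine Finset.sum_congr rfl fun s _ => ?_
  rw [eval_mul, eval_pow, eval_neg, eval_one, eval_pow, eval_X, curvesK]

theorem K4_loopless : Loopless K4 := by
  show ∀ x : Fin 6 × Bool, (rK x).1 ≠ x.1
  decide +kernel

theorem K4_col : K4.numColourings = 6 := by
  rw [Pool.Agent.KS6_69.PN.Y43.col_eq K4 K4_loopless]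
  have : ∀ c : Fin 6 → Fin 3, (∀ x, c x.1 ≠ c (K4.rot x).1) ↔ ∀ x : Fin 6 × Bool, c x.1 ≠ c (rK x).1 :=
    fun c => Iff.rfl
  rw [Nat.card_congr (Equiv.subtypeEquivRight this), Nat.card_eq_fintype_card,
    Fintype.card_subtype]
  decide +kernel

/-! ### the star product of the theta graph -/

def sgF : Fin 3 ⊕ Fin 3 → Fin 6 := Sum.elim ![0, 1, 2] ![3, 4, 5]

def sgI : Fin 6 → Fin 3 ⊕ Fin 3 :=
  ![Sum.inl 0, Sum.inl 1, Sum.inl 2, Sum.inr 0, Sum.inr 1, Sum.inr 2]

/-- numbering of the edges of the star product -/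
def sg : Fin 3 ⊕ Fin 3 ≃ Fin 6 where
  toFun := sgF
  invFun := sgI
  left_inv := by unfold Function.LeftInverse; decide +kernel
  right_inv := by unfold Function.RightInverse Function.LeftInverse; decide +kernel

/-- the legs -/
def hhT : Fin 3 → Fin 3 × Bool :=
  ![(0, false), rotTheta (0, false), rotTheta (rotTheta (0, false))]

/-- the embedding of `T` -/
def embT : Fin 3 ⊕ (Fin 3 × Bool) → (Fin 3 ⊕ Fin 3) × Bool
  | Sum.inl i => old (hhT i)
  | Sum.inr h => (Sum.inr h.1, h.2)

/-- the sides -/
def sideT : (Fin 3 ⊕ Fin 3) × Bool → (Fin 3 × Bool) ⊕ (Fin 3 ⊕ (Fin 3 × Bool))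
  | (Sum.inl e, b) =>
    if (e, b) = ((0, false) : Fin 3 × Bool) then Sum.inr (Sum.inl 0) else
    if (e, b) = rotTheta (0, false) then Sum.inr (Sum.inl 1) else
    if (e, b) = rotTheta (rotTheta (0, false)) then Sum.inr (Sum.inl 2) else Sum.inl (e, b)
  | (Sum.inr t, b) => Sum.inr (Sum.inr (t, b))

/-- the rotation system -/
def starT (z : (Fin 3 ⊕ Fin 3) × Bool) : (Fin 3 ⊕ Fin 3) × Bool :=
  Sum.elim (fun x => old (rotTheta x)) (fun y => embT (rT y)) (sideT z)

theorem starRot_eq (G : PlaneCubicGraph (Fin 3)) (hG : G.rot = rotTheta)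
    (z : (Fin 3 ⊕ Fin 3) × Bool) : starRot G (0, false) z = starT z := by
  have h1 : hh G (0, false) = hhT := by
    unfold hh hhT
    rw [hG]
  have h2 : ∀ y, emb G (0, false) y = embT y := by
    intro y
    rcases y with i | w
    · show old (hh G (0, false) i) = old (hhT i)
      rw [h1]
    · rfl
  have h3 : side G (0, false) z = sideT z := by
    rcases z with ⟨e | t, b⟩
    · unfold side sideT
      rw [hG]
    · rfl
  show Sum.elim (fun x => old (G.rot x)) (fun y => emb G (0, false) (rT y)) (side G (0, false) z) = _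
  unfold starT
  rw [h3, hG]
  congr 1
  funext y
  exact h2 _

theorem check : ∀ z : (Fin 3 ⊕ Fin 3) × Bool,
    rK (sgF z.1, z.2) = (sgF (starT z).1, (starT z).2) := by decide +kernel

theorem theta_star (G : PlaneCubicGraph (Fin 3)) (hG : G.rot = rotTheta)
    (S : PlaneCubicGraph (Fin 3 ⊕ Fin 3)) (hS : S.rot = starRot G (0, false)) :
    S.numColourings = K4.numColourings ∧ S.penrose = K4.penrose := by
  have h : ∀ x, K4.rot (Pool.Agent.KS6_69.PN.Y65.tau sg x) =
      Pool.Agent.KS6_69.PN.Y65.tau sg (S.rot x) := by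
    intro x
    rw [hS, starRot_eq G hG]
    exact check x
  exact ⟨Pool.Agent.KS6_69.PN.Y65.numColourings_congr sg S K4 h,
    Pool.Agent.KS6_69.PN.Y65.penrose_congr sg S K4 h⟩

end Pool.Agent.KS6_69.PN.TK4
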