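import Mathlib
import Pool.Agent.KS6_69.PN.TDefs
import Pool.Agent.KS6_69.PN.Par

set_option autoImplicit false

namespace Pool.Agent.KS6_69.PN.TPar

open Polynomial Pool.Agent.KS6_69.PN.Base Pool.Agent.KS6_69.PN.T
open Pool.Agent.KS6_69.PN.Y494 (hh hh_rot hh_symm hh_inj rot_ne_hh symm_ne_hh Loopless wt bb KK YY
  rotTheta colG colG_perm colG_inj colG_par card_inj)

variable {E : Type} [Fintype E] [DecidableEq E]

theorem col_mul (G : PlaneCubicGraph E) (p : E × Bool) : ∃ α : ℕ,
    ∑ q : Fin 3 → Fin 3, colG G p q * colT q =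
      α * ∑ q : Fin 3 → Fin 3, (if Function.Injective q then colT q else 0) ∧
    ∑ q : Fin 3 → Fin 3, (if Function.Injective q then colG G p q else 0) = α * 6 := by
  refine ⟨colG G p id, ?_, ?_⟩
  · rw [Finset.mul_sum]
    refine Finset.sum_congr rfl fun q _ => ?_
    by_cases hq : Function.Injective q
    · rw [if_pos hq, colG_inj G p q hq]
    · rw [if_neg hq]
      have : colG G p q = 0 := by
        by_contra h
        exact hq (colG_par G p q h)
      rw [this, zero_mul, mul_zero]
  · rw [← card_inj, Finset.mul_sum]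
    refine Finset.sum_congr rfl fun q _ => ?_
    by_cases hq : Function.Injective q
    · rw [if_pos hq, if_pos hq, colG_inj G p q hq, mul_one]
    · rw [if_neg hq, if_neg hq, mul_zero]

end Pool.Agent.KS6_69.PN.TPar
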