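import Mathlib
import Pool.Agent.KS6_69.PN.TDefs
import Pool.Agent.KS6_69.PN.Par
import Pool.Agent.KS6_69.PN.Vert

/-!
# The numbers of vertices of the star product
-/

set_option autoImplicit false

namespace Pool.Agent.KS6_69.PN.TY210

open Polynomial Pool.Agent.KS6_69.PN.Base Pool.Agent.KS6_69.PN.T
open Pool.Agent.KS6_69.PN.Y494 (hh hh_rot hh_symm hh_inj rot_ne_hh symm_ne_hh Loopless wt bb KK YY
  rotTheta colG colG_perm colG_inj colG_par card_inj)

variable {E : Type} [Fintype E] [DecidableEq E]


theorem star_vert (G : PlaneCubicGraph E) (p : E × Bool)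
    (hc : ∀ z, starRot G p (starRot G p (starRot G p z)) = z ∧ starRot G p z ≠ z) :
    Nat.card (Quotient (Equiv.Perm.SameCycle.setoid (starRot G p))) =
      Nat.card (Quotient (Equiv.Perm.SameCycle.setoid G.rot)) + 2 := by
  have h1 := Pool.Agent.KS6_69.PN.Y210.card_cubic (starRot G p) hc
  have h2 := Pool.Agent.KS6_69.PN.Y210.card_cubic G.rot G.cubic
  have h3 : Nat.card ((E ⊕ Fin 3) × Bool) = Nat.card (E × Bool) + 6 := by
    simp only [Nat.card_eq_fintype_card, Fintype.card_prod, Fintype.card_sum, Fintype.card_bool,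
      Fintype.card_fin]
    ring
  omega

end Pool.Agent.KS6_69.PN.TY210
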