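import Mathlib
import Pool.Agent.KS6_69.PN.Asm
import Pool.Agent.KS6_69.PN.TDefs
import Pool.Agent.KS6_69.PN.TVert
import Pool.Agent.KS6_69.PN.TFace
import Pool.Agent.KS6_69.PN.TColb
import Pool.Agent.KS6_69.PN.TConn
import Pool.Agent.KS6_69.PN.TStar
import Pool.Agent.KS6_69.PN.TPar
import Pool.Agent.KS6_69.PN.TK4

/-!
# Insertion of a triangle

Replacing a vertex of a loopless connected plane cubic graph by a triangle keeps the number of
3-edge-colourings and multiplies the value of the Penrose polynomial at `-1` by `-3`.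
-/

set_option autoImplicit false

namespace Pool.Agent.KS6_69.PN.TAsm

open Polynomial Pool.Agent.KS6_69.PN.Base Pool.Agent.KS6_69.PN.T
open Pool.Agent.KS6_69.PN.Y494 (hh hh_rot hh_symm hh_inj rot_ne_hh symm_ne_hh Loopless wt bb KK YY
  rotTheta colG colG_perm colG_inj colG_par card_inj poly_eq pen_eval)
open Pool.Agent.KS6_69.PN.Y369 Pool.Agent.KS6_69.PN.Y406 Pool.Agent.KS6_69.PN.Y43
  Pool.Agent.KS6_69.PN.Y47 Pool.Agent.KS6_69.PN.Y528 Pool.Agent.KS6_69.PN.Y810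
open Pool.Agent.KS6_69.PN.TY210 Pool.Agent.KS6_69.PN.TY291 Pool.Agent.KS6_69.PN.TY38
  Pool.Agent.KS6_69.PN.TY917 Pool.Agent.KS6_69.PN.TY945 Pool.Agent.KS6_69.PN.TPar
  Pool.Agent.KS6_69.PN.TK4

section
variable {E : Type} [Fintype E] [DecidableEq E]

theorem star_exists (G : PlaneCubicGraph E) (p : E × Bool) :
    ∃ S : PlaneCubicGraph (E ⊕ Fin 3), S.rot = starRot G p := by
  refine ⟨⟨starRot G p, star_cubic G p, star_conn G p, ?_⟩, rfl⟩
  have h := G.planar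
  rw [star_vert G p (star_cubic G p), star_face G p]
  have hE : Nat.card (E ⊕ Fin 3) = Nat.card E + 3 := by
    rw [Nat.card_sum, Nat.card_eq_fintype_card (α := Fin 3), Fintype.card_fin]
  rw [hE]
  omega

theorem pen_star_eval (G : PlaneCubicGraph E) (p : E × Bool) (S : PlaneCubicGraph (E ⊕ Fin 3))
    (hS : S.rot = starRot G p) (N : ℕ) :
    S.penrose.eval (N : ℤ) = ∑ u, ∑ v, KK G p N u v * TT N u v := by
  rw [penrose_lab, ← star_sum G p N, hS]

theorem pen_mul {E₁ : Type} [Fintype E₁] [DecidableEq E₁] (G : PlaneCubicGraph E) (p : E × Bool)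
    (S : PlaneCubicGraph (E ⊕ Fin 3)) (hS : S.rot = starRot G p)
    (G₁ : PlaneCubicGraph E₁) (p₁ : E₁ × Bool)
    (S₁ : PlaneCubicGraph (E₁ ⊕ Fin 3)) (hS₁ : S₁.rot = starRot G₁ p₁) :
    S.penrose * G₁.penrose = G.penrose * S₁.penrose := by
  apply poly_eq
  intro N
  obtain ⟨τ, hτ⟩ := tri N
  obtain ⟨κ, hκ⟩ := hτ (KK G p N) (KK_anti G p N) (KK_even G p N) (KK_perm G p N)
  obtain ⟨κ₁, hκ₁⟩ := hτ (KK G₁ p₁ N) (KK_anti G₁ p₁ N) (KK_even G₁ p₁ N) (KK_perm G₁ p₁ N)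
  rw [eval_mul, eval_mul, pen_star_eval G p S hS, pen_star_eval G₁ p₁ S₁ hS₁, pen_eval G p,
    pen_eval G₁ p₁, hκ, hκ, hκ₁, hκ₁]
  ring

theorem col_mul' {E₁ : Type} [Fintype E₁] [DecidableEq E₁] (G : PlaneCubicGraph E) (hG : Loopless G)
    (p : E × Bool) (S : PlaneCubicGraph (E ⊕ Fin 3)) (hS : S.rot = starRot G p)
    (G₁ : PlaneCubicGraph E₁) (hG₁ : Loopless G₁) (p₁ : E₁ × Bool)
    (S₁ : PlaneCubicGraph (E₁ ⊕ Fin 3)) (hS₁ : S₁.rot = starRot G₁ p₁) :
    S.numColourings * G₁.numColourings = G.numColourings * S₁.numColourings := by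
  have hSl : Loopless S := by
    intro x; rw [hS]; exact star_loopless G hG p x
  have hSl₁ : Loopless S₁ := by
    intro x; rw [hS₁]; exact star_loopless G₁ hG₁ p₁ x
  obtain ⟨α, h1, h2⟩ := TPar.col_mul G p
  obtain ⟨α₁, h3, h4⟩ := TPar.col_mul G₁ p₁
  rw [col_eq S hSl, col_eq S₁ hSl₁, hS, hS₁, col_star, col_star, col_self G hG p,
    col_self G₁ hG₁ p₁, h1, h2, h3, h4]
  ring
end

theorem polyArith (A B C D : ℤ[X]) (h : A * B = C * D) (h1 : B.eval (-1) = -6)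
    (h2 : D.eval (-1) = 18) :
    A.eval (-1) * (-6) = C.eval (-1) * 18 := by
  have h := congrArg (fun P => Polynomial.eval (-1) P) h
  simp only [eval_mul] at h
  rw [h1, h2] at h
  exact h

theorem natArith (a b c d : ℕ) (h : a * b = c * d) (hb : b = 6) (hd : d = 6) :
    a * 6 = c * 6 := by
  rw [hb, hd] at h
  exact h

/-- The insertion of a triangle at the endpoint of a given half-edge. -/
theorem triangle (E : Type) [Fintype E] [DecidableEq E] (G : PlaneCubicGraph E) (p : E × Bool)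
    (hG : Loopless G) : ∃ S : PlaneCubicGraph (E ⊕ Fin 3), Loopless S ∧
      S.rot = starRot G p ∧ S.numColourings = G.numColourings ∧
      S.penrose.eval (-1) = -3 * G.penrose.eval (-1) := by
  obtain ⟨θ, hθ⟩ := theta_ex
  obtain ⟨hθl, hθc, hθp⟩ := theta_val θ hθ
  obtain ⟨S, hS⟩ := star_exists G p
  obtain ⟨S₁, hS₁⟩ := star_exists θ (0, false)
  obtain ⟨h1, h2⟩ := theta_star θ hθ S₁ hS₁
  have hSl : Loopless S := by
    intro x; rw [hS]; exact star_loopless G hG _ x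
  have a1 := natArith _ _ _ _ (col_mul' G hG p S hS θ hθl (0, false) S₁ hS₁) hθc
    (h1.trans K4_col)
  have a2 := polyArith _ _ _ _ (pen_mul G p S hS θ (0, false) S₁ hS₁) hθp
    ((congrArg (fun P => Polynomial.eval (-1) P) h2).trans K4_pen)
  exact ⟨S, hSl, hS, by omega, by linarith⟩

theorem nonempty_edges {E : Type} [Fintype E] (G : PlaneCubicGraph E) : Nonempty E := by
  by_contra h
  rw [not_nonempty_iff] at h
  have h1 := G.planar
  have h2 : ∀ r : Setoid (E × Bool), Nat.card (Quotient r) = 0 := by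
    intro r
    have : IsEmpty (Quotient r) := ⟨fun q => by
      obtain ⟨a, rfl⟩ := Quotient.exists_rep q
      exact h.elim a.1⟩
    exact Nat.card_of_isEmpty
  rw [h2, h2, Nat.card_of_isEmpty] at h1
  omega

/-- The graphs of the two-parameter family. -/
theorem family (n k : ℕ) : ∃ (E : Type) (_ : Fintype E) (_ : DecidableEq E)
    (G : PlaneCubicGraph E), Nat.card E = 3 * (7 + 6 * n + k) ∧ Loopless G ∧
      G.numColourings = 54 * 9 ^ n ∧
      G.penrose.eval (-1) = -78966 * 13161 ^ n * (-3) ^ k := by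
  induction k with
  | zero =>
    obtain ⟨E, hF, hD, G, h0, h1, h2, h3⟩ := Pool.Agent.KS6_69.PN.Y494.chain n
    exact ⟨E, hF, hD, G, by rw [h0]; ring, h1, h2, by rw [h3]; ring⟩
  | succ k ih =>
    obtain ⟨E, hF, hD, G, h0, h1, h2, h3⟩ := ih
    obtain ⟨e⟩ := nonempty_edges G
    obtain ⟨S, g1, -, g2, g3⟩ := triangle E G (e, false) h1
    refine ⟨E ⊕ Fin 3, inferInstance, inferInstance, S, ?_, g1, ?_, ?_⟩
    · rw [Nat.card_sum, h0, Nat.card_fin]
      ring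
    · rw [g2, h2]
    · rw [g3, h3, pow_succ]
      ring

/-- Divisibility in the family. -/
theorem fam_ndvd (D n k : ℕ) (hD : 1 ≤ D) (hn : D * 3 ^ k < 3 ^ (n + 1)) :
    ¬ (((54 * 9 ^ n : ℕ) : ℤ) ∣ (D : ℤ) * (-78966 * 13161 ^ n * (-3) ^ k)) := by
  intro h
  have h1 := Pool.Agent.KS6_69.PN.Y494.ndvd (D * 3 ^ k) n
    (Nat.mul_pos hD (by positivity)) hn
  apply h1
  have e : (((D * 3 ^ k : ℕ) : ℤ) * (-78966 * 13161 ^ n)) =
      (-1) ^ k * ((D : ℤ) * (-78966 * 13161 ^ n * (-3) ^ k)) := by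
    push_cast
    have : (-3 : ℤ) ^ k = (-1) ^ k * 3 ^ k := by rw [← mul_pow]; norm_num
    rw [this]
    have h2 : ((-1 : ℤ) ^ k) * (-1) ^ k = 1 := by rw [← mul_pow]; norm_num
    calc (D : ℤ) * 3 ^ k * (-78966 * 13161 ^ n) =
        1 * ((D : ℤ) * 3 ^ k * (-78966 * 13161 ^ n)) := by ring
      _ = ((-1 : ℤ) ^ k * (-1) ^ k) * ((D : ℤ) * 3 ^ k * (-78966 * 13161 ^ n)) := by rw [h2]
      _ = _ := by ring
  rw [e]
  exact Dvd.dvd.mul_left h _

/-- Divisibility in the family. -/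
theorem fam_dvd (n k : ℕ) (hk : n < k) :
    (((54 * 9 ^ n : ℕ) : ℤ) ∣ (-78966 * 13161 ^ n * (-3) ^ k)) := by
  obtain ⟨j, rfl⟩ : ∃ j, k = n + 1 + j := ⟨k - (n + 1), by omega⟩
  refine ⟨-(4387 ^ (n + 1) * (-1) ^ (n + 1) * (-3) ^ j), ?_⟩
  have e1 : (13161 : ℤ) = 3 * 4387 := by norm_num
  have e2 : (9 : ℤ) = 3 * 3 := by norm_num
  have e3 : (-3 : ℤ) ^ (n + 1 + j) = (-1) ^ (n + 1) * 3 ^ (n + 1) * (-3) ^ j := by
    rw [pow_add, ← mul_pow]; norm_num
  rw [e3]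
  push_cast
  rw [e1, e2, mul_pow, mul_pow, pow_succ (4387 : ℤ), pow_succ (3 : ℤ)]
  ring

end Pool.Agent.KS6_69.PN.TAsm
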